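import Pool.Agent.helper36.PAM.Main

/-!
# Adding a sparse number to a random number
-/

namespace PAM

open Finset PAP

theorem sum_testBit (h : ℕ) : ∀ u : ℕ, u < 2 ^ h →
    ∑ i ∈ Finset.range h, (if u.testBit i = true then 2 ^ i else 0) = u := by
  induction h with
  | zero =>
    intro u hu
    simp at hu
    simp [hu]
  | succ h ih =>
    intro u hu
    rw [Finset.sum_range_succ']
    have h1 : ∀ i, u.testBit (i + 1) = (u / 2).testBit i := fun i => Nat.testBit_succ u i
    have h2 := ih (u / 2) (by rw [pow_succ] at hu; omega)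
    have h3 : ∑ i ∈ Finset.range h, (if u.testBit (i + 1) = true then 2 ^ (i + 1) else 0) =
        2 * ∑ i ∈ Finset.range h, (if (u / 2).testBit i = true then 2 ^ i else 0) := by
      rw [Finset.mul_sum]
      refine Finset.sum_congr rfl fun i _ => ?_
      rw [h1 i]
      split_ifs
      · rw [pow_succ]
        ring
      · rfl
    rw [h3, h2, Nat.testBit_zero]
    rcases Nat.mod_two_eq_zero_or_one u with h4 | h4
    · simp [h4]
      omega
    · simp [h4]
      omega

section Blk

variable {k M B : ℕ}

/-- the digits of a string, extended by false -/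
def ex (z : Fin k → Bool) (v : ℕ) : Bool := if h : v < k then z ⟨v, h⟩ else false

theorem num_ex (z : Fin k → Bool) :
    num z = ∑ v ∈ Finset.range k, (if ex z v = true then 2 ^ v else 0) := by
  unfold num
  rw [← Fin.sum_univ_eq_sum_range (fun v => if ex z v = true then 2 ^ v else 0) k]
  refine Finset.sum_congr rfl fun i _ => ?_
  simp [ex]

/-- the value of block `i` -/
def bval (B : ℕ) (z : Fin k → Bool) (i : ℕ) : ℕ :=
  ∑ j ∈ Finset.range B, (if ex z (i * B + j) = true then 2 ^ j else 0)

theorem sum_blocks (B : ℕ) (z : Fin k → Bool) (M : ℕ) :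
    ∑ v ∈ Finset.range (M * B), (if ex z v = true then 2 ^ v else 0) =
      ∑ i ∈ Finset.range M, 2 ^ (i * B) * bval B z i := by
  induction M with
  | zero => simp
  | succ M ih =>
    rw [Nat.succ_mul, Finset.sum_range_add, Finset.sum_range_succ, ih]
    congr 1
    unfold bval
    rw [Finset.mul_sum]
    refine Finset.sum_congr rfl fun j _ => ?_
    split_ifs
    · rw [pow_add]
    · rw [mul_zero]

theorem num_blocks (h : M * B ≤ k) (z : Fin k → Bool) :
    num z = ∑ i ∈ Finset.range M, 2 ^ (i * B) * bval B z i +
      ∑ v ∈ Finset.Ico (M * B) k, (if ex z v = true then 2 ^ v else 0) := by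
  rw [num_ex, ← sum_blocks]
  exact (Finset.sum_range_add_sum_Ico _ h).symm

/-- the strings without a block of ones -/
def good (k M B : ℕ) : Finset (Fin k → Bool) :=
  Finset.univ.filter (fun u => ∀ i ∈ Finset.range M, ∃ j ∈ Finset.range B, ex u (i * B + j) = false)

theorem bval_lt {u : Fin k → Bool} (hu : u ∈ good k M B) {i : ℕ} (hi : i < M) :
    bval B u i + 1 < 2 ^ B := by
  obtain ⟨j0, hj0, h0⟩ := (Finset.mem_filter.mp hu).2 i (Finset.mem_range.mpr hi)
  have h1 : bval B u i ≤ ∑ j ∈ (Finset.range B).erase j0, 2 ^ j := by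
    unfold bval
    rw [← Finset.sum_erase_add _ _ hj0, h0]
    simp only [Bool.false_eq_true, if_false, add_zero]
    refine Finset.sum_le_sum fun j _ => ?_
    split_ifs
    · exact le_refl _
    · exact Nat.zero_le _
  have h2 := Finset.sum_erase_add (Finset.range B) (fun j => 2 ^ j) hj0
  have h3 : ∑ j ∈ Finset.range B, 2 ^ j = 2 ^ B - 1 := by
    have := Nat.geomSum_eq (le_refl 2) B
    simpa using this
  have h4 : 1 ≤ 2 ^ j0 := Nat.one_le_two_pow
  have h5 : 1 ≤ 2 ^ B := Nat.one_le_two_pow
  omega

/-- add one to the blocks in `x` -/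
def add1 (B : ℕ) (x : Fin M → Bool) (u : Fin k → Bool) : Fin k → Bool := fun v =>
  if h : (v : ℕ) / B < M then
    (if x ⟨(v : ℕ) / B, h⟩ = true then (bval B u ((v : ℕ) / B) + 1).testBit ((v : ℕ) % B) else u v)
  else u v

theorem add1_mem {K : Type} [Field K] (u : Fin k → Bool) (v : Fin k) :
    (fun x => bk K (add1 B x u v) : (Fin M → Bool) → K) ∈ Lk (Fin M) K 1 := by
  by_cases h : (v : ℕ) / B < M
  · have e : (fun x => bk K (add1 B x u v) : (Fin M → Bool) → K) =
        fun x => aff (bk K (u v)) (bk K ((bval B u ((v : ℕ) / B) + 1).testBit ((v : ℕ) % B)))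
          (x ⟨(v : ℕ) / B, h⟩) := by
      funext x
      unfold add1 aff
      rw [dif_pos h]
      split_ifs <;> rfl
    rw [e]
    exact aff_mem _ _ _
  · have e : (fun x => bk K (add1 B x u v) : (Fin M → Bool) → K) = fun _ => bk K (u v) := by
      funext x
      unfold add1
      rw [dif_neg h]
    rw [e]
    exact Lk_const _ _

theorem ex_add1_out (x : Fin M → Bool) (u : Fin k → Bool) (hB : 0 < B) {v : ℕ}
    (hv : M * B ≤ v) : ex (add1 B x u) v = ex u v := by
  unfold ex
  by_cases h : v < k
  · rw [dif_pos h, dif_pos h]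
    unfold add1
    rw [dif_neg]
    rw [not_lt]
    exact (Nat.le_div_iff_mul_le hB).2 hv
  · rw [dif_neg h, dif_neg h]

theorem bval_add1 (h : M * B ≤ k) (x : Fin M → Bool) {u : Fin k → Bool} (hu : u ∈ good k M B)
    (hB : 0 < B) (i : Fin M) :
    bval B (add1 B x u) i = bval B u i + (if x i = true then 1 else 0) := by
  have key : ∀ j, j < B → ex (add1 B x u) (i * B + j) =
      if x i = true then (bval B u i + 1).testBit j else ex u (i * B + j) := by
    intro j hj
    have h1 : (i : ℕ) * B + j < k := by
      have h2 : ((i : ℕ) + 1) * B ≤ M * B := Nat.mul_le_mul_right _ i.2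
      rw [Nat.succ_mul] at h2
      omega
    have h2 : ((i : ℕ) * B + j) / B = i := by
      rw [mul_comm, Nat.mul_add_div hB, Nat.div_eq_of_lt hj, add_zero]
    have h3 : ((i : ℕ) * B + j) % B = j := by
      rw [mul_comm, Nat.mul_add_mod, Nat.mod_eq_of_lt hj]
    unfold ex
    rw [dif_pos h1, dif_pos h1]
    unfold add1
    rw [dif_pos (by show ((i : ℕ) * B + j) / B < M; rw [h2]; exact i.2)]
    have h4 : (⟨((⟨(i : ℕ) * B + j, h1⟩ : Fin k) : ℕ) / B,
        (by show ((i : ℕ) * B + j) / B < M; rw [h2]; exact i.2)⟩ : Fin M) = i := Fin.ext h2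
    rw [h4]
    show (if x i = true then (bval B u (((i : ℕ) * B + j) / B) + 1).testBit
      (((i : ℕ) * B + j) % B) else u _) = _
    rw [h2, h3]
  have e : bval B (add1 B x u) i = ∑ j ∈ Finset.range B,
      (if (if x i = true then (bval B u i + 1).testBit j else ex u (i * B + j)) = true
        then 2 ^ j else 0) := by
    unfold bval
    refine Finset.sum_congr rfl fun j hj => ?_
    rw [key j (Finset.mem_range.mp hj)]
    rfl
  rw [e]
  by_cases hx : x i = true
  · simp only [hx, if_true]
    exact sum_testBit B _ (bval_lt hu i.2)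
  · simp only [hx, Bool.false_eq_true, if_false, add_zero]
    rfl

theorem num_add1 (h : M * B ≤ k) (x : Fin M → Bool) {u : Fin k → Bool} (hu : u ∈ good k M B)
    (hB : 0 < B) :
    num (add1 B x u) = num u + ∑ i : Fin M, (if x i = true then 2 ^ ((i : ℕ) * B) else 0) := by
  rw [num_blocks h, num_blocks h u, ← Fin.sum_univ_eq_sum_range
    (fun i => 2 ^ (i * B) * bval B (add1 B x u) i) M, ← Fin.sum_univ_eq_sum_range
    (fun i => 2 ^ (i * B) * bval B u i) M]
  have e1 : ∑ i : Fin M, 2 ^ ((i : ℕ) * B) * bval B (add1 B x u) i =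
      ∑ i : Fin M, 2 ^ ((i : ℕ) * B) * bval B u i +
        ∑ i : Fin M, (if x i = true then 2 ^ ((i : ℕ) * B) else 0) := by
    rw [← Finset.sum_add_distrib]
    refine Finset.sum_congr rfl fun i _ => ?_
    rw [bval_add1 h x hu hB i, mul_add]
    congr 1
    split_ifs
    · rw [mul_one]
    · rw [mul_zero]
  have e2 : ∑ v ∈ Finset.Ico (M * B) k, (if ex (add1 B x u) v = true then 2 ^ v else 0) =
      ∑ v ∈ Finset.Ico (M * B) k, (if ex u v = true then 2 ^ v else 0) := by
    refine Finset.sum_congr rfl fun v hv => ?_
    rw [ex_add1_out x u hB (Finset.mem_Ico.mp hv).1]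
  rw [e1, e2]
  ring

theorem add1_inj (h : M * B ≤ k) (hB : 0 < B) (x : Fin M → Bool) :
    Set.InjOn (add1 (k := k) B x) (good k M B : Set (Fin k → Bool)) := by
  intro u hu u' hu' e
  have h1 := num_add1 h x hu hB
  have h2 := num_add1 h x hu' hB
  rw [e, h2] at h1
  exact num_inj (Nat.add_right_cancel h1).symm

theorem card_true {V : Type} [Fintype V] [DecidableEq V] (S : Finset V) :
    (Finset.univ.filter (fun u : V → Bool => ∀ v ∈ S, u v = true)).card * 2 ^ S.card =
      2 ^ Fintype.card V := by
  have e : Finset.univ.filter (fun u : V → Bool => ∀ v ∈ S, u v = true) =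
      Fintype.piFinset (fun v => if v ∈ S then {true} else Finset.univ) := by
    ext u
    rw [Finset.mem_filter, Fintype.mem_piFinset]
    constructor
    · rintro ⟨-, h⟩ v
      by_cases hv : v ∈ S
      · rw [if_pos hv, Finset.mem_singleton]
        exact h v hv
      · rw [if_neg hv]
        exact Finset.mem_univ _
    · intro h
      refine ⟨Finset.mem_univ _, fun v hv => ?_⟩
      have h1 := h v
      rw [if_pos hv, Finset.mem_singleton] at h1
      exact h1
  rw [e, Fintype.card_piFinset]
  have e2 : ∀ v, (if v ∈ S then ({true} : Finset Bool) else Finset.univ).card =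
      if v ∈ S then 1 else 2 := by
    intro v
    split_ifs <;> simp
  rw [Finset.prod_congr rfl fun v _ => e2 v, Finset.prod_ite]
  simp only [Finset.prod_const_one, one_mul, Finset.prod_const]
  rw [← pow_add]
  congr 1
  have h1 := Finset.card_filter_add_card_filter_not (s := (Finset.univ : Finset V)) (fun v => v ∈ S)
  rw [Finset.filter_mem_eq_inter, Finset.univ_inter, Finset.card_univ] at h1
  omega

theorem card_not_good (h : M * B ≤ k) (hB : 0 < B) :
    ((good k M B)ᶜ).card * 2 ^ B ≤ M * 2 ^ k := by
  classical
  have h1 : (good k M B)ᶜ ⊆ (Finset.range M).biUnion (fun i => Finset.univ.filter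
      (fun u : Fin k → Bool => ∀ v ∈ Finset.univ.filter (fun v : Fin k => (v : ℕ) / B = i),
        u v = true)) := by
    intro u hu
    rw [Finset.mem_compl, good, Finset.mem_filter, not_and] at hu
    have h2 := hu (Finset.mem_univ _)
    push Not at h2
    obtain ⟨i, hi, h3⟩ := h2
    rw [Finset.mem_biUnion]
    refine ⟨i, hi, Finset.mem_filter.mpr ⟨Finset.mem_univ _, fun v hv => ?_⟩⟩
    have h4 : (v : ℕ) / B = i := (Finset.mem_filter.mp hv).2
    have h5 := h3 ((v : ℕ) % B) (Finset.mem_range.mpr (Nat.mod_lt _ hB))
    have h6 : i * B + (v : ℕ) % B = v := by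
      rw [← h4, mul_comm]
      exact Nat.div_add_mod _ _
    rw [h6] at h5
    simpa [ex] using h5
  have h2 := (Finset.card_le_card h1).trans Finset.card_biUnion_le
  calc ((good k M B)ᶜ).card * 2 ^ B ≤ (∑ i ∈ Finset.range M, (Finset.univ.filter
      (fun u : Fin k → Bool => ∀ v ∈ Finset.univ.filter (fun v : Fin k => (v : ℕ) / B = i),
        u v = true)).card) * 2 ^ B := Nat.mul_le_mul_right _ h2
    _ = ∑ i ∈ Finset.range M, (Finset.univ.filter
      (fun u : Fin k → Bool => ∀ v ∈ Finset.univ.filter (fun v : Fin k => (v : ℕ) / B = i),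
        u v = true)).card * 2 ^ B := Finset.sum_mul _ _ _
    _ ≤ ∑ _i ∈ Finset.range M, 2 ^ k := by
        refine Finset.sum_le_sum fun i hi => ?_
        rw [Finset.mem_range] at hi
        have h3 : B ≤ (Finset.univ.filter (fun v : Fin k => (v : ℕ) / B = i)).card := by
          have h4 : (Finset.range B).card ≤
              (Finset.univ.filter (fun v : Fin k => (v : ℕ) / B = i)).card := by
            refine Finset.card_le_card_of_injOn (fun j => (if h : i * B + j < k then
              (⟨i * B + j, h⟩ : Fin k) else ⟨0, by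
                have : 1 * B ≤ M * B := Nat.mul_le_mul_right _ (by omega)
                omega⟩)) ?_ ?_
            · intro j hj
              rw [Finset.mem_coe, Finset.mem_range] at hj
              have h5 : i * B + j < k := by
                have h2 : (i + 1) * B ≤ M * B := Nat.mul_le_mul_right _ hi
                rw [Nat.succ_mul] at h2
                omega
              rw [Finset.mem_coe, Finset.mem_filter]
              refine ⟨Finset.mem_univ _, ?_⟩
              simp only [h5, dif_pos]
              rw [mul_comm, Nat.mul_add_div hB, Nat.div_eq_of_lt hj, add_zero]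
            · intro j hj j' hj' e
              rw [Finset.mem_coe, Finset.mem_range] at hj hj'
              have h2 : (i + 1) * B ≤ M * B := Nat.mul_le_mul_right _ hi
              rw [Nat.succ_mul] at h2
              have h5 : i * B + j < k := by omega
              have h6 : i * B + j' < k := by omega
              simp only [h5, h6, dif_pos, Fin.mk.injEq] at e
              omega
          rwa [Finset.card_range] at h4
        have h5 := card_true (Finset.univ.filter (fun v : Fin k => (v : ℕ) / B = i))
        rw [Fintype.card_fin] at h5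
        rw [← h5]
        refine Nat.mul_le_mul (le_of_eq ?_) (Nat.pow_le_pow_right (by norm_num) h3)
        congr
    _ = M * 2 ^ k := by
        rw [Finset.sum_const, Finset.card_range, smul_eq_mul]

end Blk

end PAM
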