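import Pool.Agent.helper36.PAM.Deg
import Pool.Agent.helper36.PAP.Defs

/-!
# Circuits with AND, OR and MOD gates and their approximation by functions of low degree
-/

namespace PAM

open Finset PAP

/-- A circuit with input variables `V`, `s` gates of unbounded fan-in, depth at most `d` and `m`
output bits. Gate `i` has `fan i` input wires (repetitions are allowed); wire `t` carries the
value of the variable or gate `(wire i t).1`, negated if `(wire i t).2 = true`. Gate `i` has the
level `lev i < d` and only reads gates of smaller level. The gate `i` is a MOD gate if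
`kind i = some c`: its value is true if and only if the number of true input wires is congruent
to `c` modulo `r`. If `kind i = none` it is an OR gate (if `isOr i = true`) or an AND gate. -/
structure MCircuit (V : Type) (r d s m : ℕ) where
  lev : Fin s → Fin d
  kind : Fin s → Option ℕ
  isOr : Fin s → Bool
  fan : Fin s → ℕ
  wire : (i : Fin s) → Fin (fan i) → (V ⊕ Fin s) × Bool
  acyclic : ∀ (i : Fin s) (t : Fin (fan i)) (j : Fin s), (wire i t).1 = Sum.inr j → lev j < lev i
  out : Fin m → (V ⊕ Fin s) × Bool

variable {V : Type} {r d s m : ℕ}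

/-- the value of gate `i`, when the variables have the values `x` and the gates the values `g` -/
def MCircuit.gate (C : MCircuit V r d s m) (x : V → Bool) (g : Fin s → Bool) (i : Fin s) : Bool :=
  match C.kind i with
  | some c => decide ((Finset.univ.filter
      (fun t : Fin (C.fan i) => wireVal x g (C.wire i t) = true)).card ≡ c [MOD r])
  | none => if C.isOr i = true then decide (∃ t, wireVal x g (C.wire i t) = true)
    else decide (∀ t, wireVal x g (C.wire i t) = true)

/-- the values of the gates after `l` rounds of evaluation; a gate of level `< l` has then its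
final value -/
def MCircuit.val (C : MCircuit V r d s m) (x : V → Bool) : ℕ → Fin s → Bool
  | 0 => fun _ => false
  | l + 1 => fun i => C.gate x (C.val x l) i

/-- output bit number `j` on the input `x` -/
def MCircuit.bit (C : MCircuit V r d s m) (x : V → Bool) (j : Fin m) : Bool :=
  wireVal x (C.val x d) (C.out j)

section

variable [Fintype V] [DecidableEq V] {K : Type} [Field K]

/-- the sum of the values of the wires of a gate in `S` -/
def wsum (K : Type) [Field K] {n : ℕ} (w : Fin n → Bool) (S : Finset (Fin n)) : K :=
  ∑ t ∈ S, bk K (w t)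

theorem bk_not (b : Bool) : bk K (!b) = 1 - bk K b := by
  cases b <;> simp [bk]

theorem LD_not {D : ℕ} {b : (V → Bool) → Bool} (h : LD K D b) : LD K D (fun x => !(b x)) := by
  unfold LD at h ⊢
  have e : (fun x => bk K (!(b x))) = (1 : (V → Bool) → K) - fun x => bk K (b x) := by
    funext x
    exact bk_not _
  rw [e]
  exact Submodule.sub_mem _ (Lk_one D) h

theorem LD_xor {D : ℕ} {b : (V → Bool) → Bool} (h : LD K D b) (c : Bool) :
    LD K D (fun x => xor (b x) c) := by
  cases c
  · simpa using h
  · simpa using LD_not h

theorem LD_mono {D D' : ℕ} (hD : D ≤ D') {b : (V → Bool) → Bool} (h : LD K D b) : LD K D' b :=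
  Lk_mono hD h

variable [Fact r.Prime] [CharP K r]

theorem intCast_pow_zero {n : ℤ} (h : (n : K) = 0) : (n : K) ^ (r - 1) = 0 := by
  have hr : r.Prime := Fact.out
  rw [h]
  exact zero_pow (by have := hr.two_le; omega)

/-- Fermat: the power `r - 1` of an integer in a field of characteristic `r`. -/
theorem intCast_pow_one {n : ℤ} (h : (n : K) ≠ 0) : (n : K) ^ (r - 1) = 1 := by
  have h1 : ((n : ZMod r) : ZMod r) ≠ 0 := by
    intro h0
    apply h
    rw [ZMod.intCast_zmod_eq_zero_iff_dvd] at h0
    exact (CharP.intCast_eq_zero_iff K r n).2 h0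
  have h2 := ZMod.pow_card_sub_one_eq_one h1
  have h3 := congrArg (ZMod.castHom (dvd_refl r) K) h2
  rw [map_pow, map_one, map_intCast] at h3
  exact h3

theorem wsum_eq_card {n : ℕ} (w : Fin n → Bool) (S : Finset (Fin n)) :
    wsum K w S = ((S.filter (fun t => w t = true)).card : K) := by
  unfold wsum bk
  rw [Finset.sum_boole]

theorem Lk_sum {ι : Type} (s : Finset ι) (f : ι → (V → Bool) → K) (D : ℕ)
    (hf : ∀ i ∈ s, f i ∈ Lk V K D) : ∑ i ∈ s, f i ∈ Lk V K D := Submodule.sum_mem _ hf

/-- the vanishing of a sum of functions of low degree -/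
theorem LD_modEq {D n : ℕ} (w : (V → Bool) → Fin n → Bool)
    (hw : ∀ t, LD K D (fun x => w x t)) (S : Finset (Fin n)) (c : ℕ) :
    LD K ((r - 1) * D) (fun x =>
      decide ((S.filter (fun t => w x t = true)).card ≡ c [MOD r])) := by
  unfold LD
  have e : (fun x => bk K (decide ((S.filter (fun t => w x t = true)).card ≡ c [MOD r]))) =
      1 - ((∑ t ∈ S, fun x => bk K (w x t)) - fun _ => (c : K)) ^ (r - 1) := by
    funext x
    rw [Pi.sub_apply, Pi.one_apply, Pi.pow_apply, Pi.sub_apply, Finset.sum_apply]
    have h1 : ∑ t ∈ S, bk K (w x t) - (c : K) =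
        (((S.filter (fun t => w x t = true)).card : ℤ) - (c : ℤ) : ℤ) := by
      push_cast
      rw [← wsum_eq_card]
      rfl
    rw [h1]
    have h2 : (((((S.filter (fun t => w x t = true)).card : ℤ) - (c : ℤ) : ℤ) : K) = 0) ↔
        (S.filter (fun t => w x t = true)).card ≡ c [MOD r] := by
      rw [CharP.intCast_eq_zero_iff K r, Nat.modEq_iff_dvd, ← dvd_neg, neg_sub]
    unfold bk
    by_cases h3 : (S.filter (fun t => w x t = true)).card ≡ c [MOD r]
    · rw [intCast_pow_zero (h2.2 h3)]
      simp [h3]
    · rw [intCast_pow_one (r := r) (fun h4 => h3 (h2.1 h4))]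
      simp [h3]
  rw [e]
  refine Submodule.sub_mem _ (Lk_one _) (Lk_pow ?_ _)
  refine Submodule.sub_mem _ (Submodule.sum_mem _ fun t _ => hw t) (Lk_const _ _)

/-- the product of Boolean functions -/
theorem LD_all {D n : ℕ} (b : Fin n → (V → Bool) → Bool) (hb : ∀ t, LD K D (b t)) :
    LD K (n * D) (fun x => decide (∀ t, b t x = true)) := by
  have h := Lk_prod (Finset.univ : Finset (Fin n)) (fun t => (fun x => bk K (b t x))) D
    (fun t _ => hb t)
  rw [Finset.card_univ, Fintype.card_fin] at h
  unfold LD
  have e : (fun x => bk K (decide (∀ t, b t x = true))) =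
      ∏ t : Fin n, (fun x => bk K (b t x) : (V → Bool) → K) := by
    funext x
    rw [Finset.prod_apply]
    by_cases h1 : ∀ t, b t x = true
    · rw [Finset.prod_eq_one (fun t _ => by simp [bk, h1 t])]
      simp [bk, h1]
    · push Not at h1
      obtain ⟨t, ht⟩ := h1
      rw [Finset.prod_eq_zero (Finset.mem_univ t) (by simp [bk, ht])]
      have : ¬ ∀ t, b t x = true := fun h2 => ht (h2 t)
      simp [bk, this]
  rw [e]
  exact h

end

/-! ### the averaging argument for OR -/

/-- Half of the subsets have a number of true elements which is not divisible by `r`, if there is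
a true element. -/
theorem card_subsets_le {n : ℕ} (w : Fin n → Bool) (hw : ∃ t, w t = true) (hr : 2 ≤ r) :
    2 * (Finset.univ.filter (fun S : Finset (Fin n) =>
      (S.filter (fun t => w t = true)).card ≡ 0 [MOD r])).card ≤ 2 ^ n := by
  classical
  obtain ⟨t₀, ht₀⟩ := hw
  -- the involution `S ↦ S Δ {t₀}` changes the count by one
  set A := Finset.univ.filter (fun S : Finset (Fin n) =>
      (S.filter (fun t => w t = true)).card ≡ 0 [MOD r]) with hA
  let φ : Finset (Fin n) → Finset (Fin n) := fun S => symmDiff S {t₀}
  have hφ : Function.Injective φ := by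
    intro S T h
    exact symmDiff_left_injective {t₀} h
  have hdisj : Disjoint A (A.image φ) := by
    rw [Finset.disjoint_left]
    intro S hS hS'
    obtain ⟨T, hT, hTS⟩ := Finset.mem_image.mp hS'
    rw [hA, Finset.mem_filter] at hS hT
    have h1 := hS.2
    have h2 := hT.2
    rw [← hTS] at h1
    have key : ∀ U : Finset (Fin n), t₀ ∉ U →
        (((insert t₀ U).filter (fun t => w t = true)).card =
          (U.filter (fun t => w t = true)).card + 1) := by
      intro U hU
      rw [Finset.filter_insert, if_pos ht₀, Finset.card_insert_of_notMem]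
      intro h
      exact hU (Finset.mem_filter.mp h).1
    have hone : ∀ a : ℕ, a ≡ 0 [MOD r] → a + 1 ≡ 0 [MOD r] → False := by
      intro a ha ha'
      rw [Nat.modEq_zero_iff_dvd] at ha ha'
      have h3 : r ∣ 1 := (Nat.dvd_add_right ha).mp ha'
      have := Nat.le_of_dvd (by norm_num) h3
      omega
    by_cases ht : t₀ ∈ T
    · have e1 : φ T = T.erase t₀ := by
        ext u
        simp only [φ, Finset.mem_symmDiff, Finset.mem_singleton, Finset.mem_erase]
        constructor
        · rintro (⟨h3, h4⟩ | ⟨rfl, h4⟩)
          · exact ⟨h4, h3⟩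
          · exact absurd ht h4
        · rintro ⟨h3, h4⟩
          exact Or.inl ⟨h4, h3⟩
      rw [e1] at h1
      have h5 := key (T.erase t₀) (Finset.notMem_erase _ _)
      rw [Finset.insert_erase ht] at h5
      rw [h5] at h2
      exact hone _ h1 h2
    · have e1 : φ T = insert t₀ T := by
        ext u
        simp only [φ, Finset.mem_symmDiff, Finset.mem_singleton, Finset.mem_insert]
        constructor
        · rintro (⟨h3, h4⟩ | ⟨rfl, h4⟩)
          · exact Or.inr h3
          · exact Or.inl rfl
        · rintro (rfl | h3)
          · exact Or.inr ⟨rfl, ht⟩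
          · exact Or.inl ⟨h3, fun h4 => ht (h4 ▸ h3)⟩
      rw [e1, key T ht] at h1
      exact hone _ h2 h1
  have h3 := Finset.card_le_univ (A ∪ A.image φ)
  rw [Finset.card_union_of_disjoint hdisj, Finset.card_image_of_injective _ hφ,
    Fintype.card_finset, Fintype.card_fin] at h3
  omega

end PAM
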