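import Pool.Agent.helper36.PAP.NT2

/-!
# Decoding a shift of a distribution which is not uniform
-/

namespace PAM

open Finset PAP

section Decode

variable {Γ : Type} [AddCommGroup Γ] [Fintype Γ]

omit [Fintype Γ] in
theorem inv_mul (μ : Γ → ℝ) (h : Γ) (δ : ℝ) (hinv : ∀ γ, |μ (γ + h) - μ γ| ≤ δ) (e : ℕ) :
    ∀ γ, |μ (γ + e • h) - μ γ| ≤ e * δ := by
  induction e with
  | zero => intro γ; simp
  | succ e ih =>
    intro γ
    have h1 := ih γ
    have h2 := hinv (γ + e • h)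
    rw [add_assoc, ← succ_nsmul] at h2
    have h3 := abs_add_le (μ (γ + (e + 1) • h) - μ (γ + e • h)) (μ (γ + e • h) - μ γ)
    rw [sub_add_sub_cancel] at h3
    push_cast
    linarith

open Classical in
theorem exists_decoder {q : ℕ} (κ : Γ →+ ZMod q) (μ : Γ → ℝ) (η τ : ℝ) (hτ : 0 ≤ τ)
    (hητ : 2 * τ * Fintype.card Γ ≤ η) (h0 γ0 : Γ)
    (hgen : ∀ h : Γ, κ h ≠ 0 → ∃ e : ℕ, e < Fintype.card Γ ∧ e • h = h0)
    (hbig : η < |μ (γ0 + h0) - μ γ0|) :
    ∃ dec : (Γ → ℝ) → ZMod q, ∀ (s : Γ) (ν : Γ → ℝ), (∀ γ, |ν γ - μ (γ + s)| ≤ τ) →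
      dec ν = κ s := by
  refine ⟨fun ν => if H : ∃ c, ∀ γ, |ν γ - μ (γ + c)| ≤ τ then κ H.choose else 0, ?_⟩
  intro s ν hν
  have H : ∃ c, ∀ γ, |ν γ - μ (γ + c)| ≤ τ := ⟨s, hν⟩
  show (if H : ∃ c, ∀ γ, |ν γ - μ (γ + c)| ≤ τ then κ H.choose else 0) = κ s
  rw [dif_pos H]
  have hc := H.choose_spec
  set c := H.choose
  by_contra hne
  have h1 : κ (c - s) ≠ 0 := by
    rw [map_sub]
    exact sub_ne_zero.2 hne
  obtain ⟨e, he, heh⟩ := hgen _ h1
  have h2 : ∀ γ, |μ (γ + (c - s)) - μ γ| ≤ 2 * τ := by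
    intro γ
    have h3 := hc (γ - s)
    have h4 := hν (γ - s)
    rw [sub_add_cancel] at h4
    have h5 : γ - s + c = γ + (c - s) := by abel
    rw [h5] at h3
    have h6 := abs_sub_le (μ (γ + (c - s))) (ν (γ - s)) (μ γ)
    rw [abs_sub_comm] at h3
    linarith
  have h3 := inv_mul μ (c - s) (2 * τ) h2 e γ0
  rw [heh] at h3
  have h4 : (e : ℝ) * (2 * τ) ≤ 2 * τ * Fintype.card Γ := by
    rw [mul_comm]
    refine mul_le_mul_of_nonneg_left ?_ (by positivity)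
    exact_mod_cast he.le
  linarith

end Decode

section RQ

variable (Q : Finset ℕ) [hF : ∀ i : {q // q ∈ Q}, Fact (Nat.Prime (i : ℕ))]

theorem rq_mult (i : {q // q ∈ Q}) (b : ZMod (i : ℕ)) (h : RQ Q) (hh : h i ≠ 0) :
    ∃ e : ℕ, e < Fintype.card (RQ Q) ∧ e • h = Pi.single i b := by
  obtain ⟨j, hj⟩ := rq_gen Q (Pi.single i (b / h i))
  refine ⟨j % Fintype.card (RQ Q), Nat.mod_lt _ Fintype.card_pos, ?_⟩
  rw [mod_card_nsmul, nsmul_eq_mul, hj]
  funext l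
  by_cases hl : l = i
  · subst hl
    rw [Pi.mul_apply, Pi.single_eq_same, Pi.single_eq_same, div_mul_cancel₀ _ hh]
  · rw [Pi.mul_apply, Pi.single_eq_of_ne hl, Pi.single_eq_of_ne hl, zero_mul]

theorem near_uniform (μ : RQ Q → ℝ) (η : ℝ)
    (hμ : ∀ (i : {q // q ∈ Q}) (b : ZMod (i : ℕ)) (γ : RQ Q), |μ (γ + Pi.single i b) - μ γ| ≤ η)
    (γ γ' : RQ Q) : |μ γ - μ γ'| ≤ Fintype.card {q // q ∈ Q} * η := by
  classical
  have key : ∀ S : Finset {q // q ∈ Q},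
      |μ (γ' + ∑ i ∈ S, Pi.single i ((γ - γ') i)) - μ γ'| ≤ S.card * η := by
    intro S
    induction S using Finset.induction_on with
    | empty => simp
    | insert a S ha ih =>
      rw [Finset.sum_insert ha, Finset.card_insert_of_notMem ha]
      have h1 := hμ a ((γ - γ') a) (γ' + ∑ i ∈ S, Pi.single i ((γ - γ') i))
      have h2 := abs_sub_le (μ (γ' + (Pi.single a ((γ - γ') a) +
        ∑ i ∈ S, Pi.single i ((γ - γ') i)))) (μ (γ' + ∑ i ∈ S, Pi.single i ((γ - γ') i))) (μ γ')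
      have e : γ' + ∑ i ∈ S, Pi.single i ((γ - γ') i) + Pi.single a ((γ - γ') a) =
        γ' + (Pi.single a ((γ - γ') a) + ∑ i ∈ S, Pi.single i ((γ - γ') i)) := by abel
      rw [e] at h1
      push_cast
      linarith
  have h1 := key Finset.univ
  rw [Finset.univ_sum_single, add_sub_cancel, Finset.card_univ] at h1
  exact h1

theorem le_uniform (μ : RQ Q → ℝ) (η : ℝ)
    (hμ : ∀ (i : {q // q ∈ Q}) (b : ZMod (i : ℕ)) (γ : RQ Q), |μ (γ + Pi.single i b) - μ γ| ≤ η)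
    (hsum : ∑ γ, μ γ = 1) (γ : RQ Q) :
    μ γ ≤ 1 / Fintype.card (RQ Q) + Fintype.card {q // q ∈ Q} * η := by
  set c : ℝ := (Fintype.card (RQ Q) : ℝ) with hc
  have hc0 : 0 < c := by
    rw [hc]
    exact_mod_cast Fintype.card_pos
  have h1 : c * μ γ ≤ 1 + c * (Fintype.card {q // q ∈ Q} * η) := by
    calc c * μ γ = ∑ _γ' : RQ Q, μ γ := by
          rw [Finset.sum_const, Finset.card_univ, nsmul_eq_mul]
      _ ≤ ∑ γ' : RQ Q, (μ γ' + Fintype.card {q // q ∈ Q} * η) := by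
          refine Finset.sum_le_sum fun γ' _ => ?_
          have := (abs_le.mp (near_uniform Q μ η hμ γ γ')).2
          linarith
      _ = 1 + c * (Fintype.card {q // q ∈ Q} * η) := by
          rw [Finset.sum_add_distrib, hsum, Finset.sum_const, Finset.card_univ, nsmul_eq_mul]
  have h2 : c * μ γ ≤ c * (1 / c + Fintype.card {q // q ∈ Q} * η) := by
    rw [mul_add, mul_one_div_cancel hc0.ne']
    exact h1
  exact le_of_mul_le_mul_left h2 hc0

end RQ

end PAM
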