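import Mathlib

/-!
# Functions of low degree on the cube
-/

namespace PAM

open Finset

variable {V : Type} [Fintype V] [DecidableEq V] {K : Type} [Field K]

/-- the value of a bit in `K` -/
def bk (K : Type) [Field K] (b : Bool) : K := if b = true then 1 else 0

/-- a monomial -/
def mon (K : Type) [Field K] (S : Finset V) : (V → Bool) → K := fun x => ∏ i ∈ S, bk K (x i)

/-- functions of degree at most `D` -/
def Lk (V : Type) [Fintype V] [DecidableEq V] (K : Type) [Field K] (D : ℕ) :
    Submodule K ((V → Bool) → K) :=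
  Submodule.span K (mon K '' {S : Finset V | S.card ≤ D})

theorem bk_mul_self (b : Bool) : bk K b * bk K b = bk K b := by
  cases b <;> simp [bk]

theorem mon_mul (S T : Finset V) : mon K S * mon K T = mon K (S ∪ T) := by
  funext x
  show (∏ i ∈ S, bk K (x i)) * (∏ i ∈ T, bk K (x i)) = ∏ i ∈ S ∪ T, bk K (x i)
  have h1 : ∏ i ∈ S ∪ T, bk K (x i) = (∏ i ∈ S, bk K (x i)) * ∏ i ∈ T \ S, bk K (x i) := by
    rw [← Finset.prod_union Finset.disjoint_sdiff, Finset.union_sdiff_self_eq_union]
  have h2 : ∏ i ∈ T, bk K (x i) = (∏ i ∈ T ∩ S, bk K (x i)) * ∏ i ∈ T \ S, bk K (x i) := by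
    rw [Finset.prod_inter_mul_prod_sdiff]
  have h3 : (∏ i ∈ S, bk K (x i)) * (∏ i ∈ T ∩ S, bk K (x i)) = ∏ i ∈ S, bk K (x i) := by
    rw [← Finset.prod_inter_mul_prod_sdiff S T (fun i => bk K (x i)), Finset.inter_comm T S]
    have : (∏ i ∈ S ∩ T, bk K (x i)) * (∏ i ∈ S ∩ T, bk K (x i)) = ∏ i ∈ S ∩ T, bk K (x i) := by
      rw [← Finset.prod_mul_distrib]
      exact Finset.prod_congr rfl fun i _ => bk_mul_self _
    calc (∏ i ∈ S ∩ T, bk K (x i)) * (∏ i ∈ S \ T, bk K (x i)) * ∏ i ∈ S ∩ T, bk K (x i)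
        = ((∏ i ∈ S ∩ T, bk K (x i)) * (∏ i ∈ S ∩ T, bk K (x i))) *
          ∏ i ∈ S \ T, bk K (x i) := by ring
      _ = _ := by rw [this]
  rw [h2, ← mul_assoc, h3, h1]

theorem mon_mem {D : ℕ} (S : Finset V) (h : S.card ≤ D) : mon K S ∈ Lk V K D :=
  Submodule.subset_span ⟨S, h, rfl⟩

theorem Lk_mono {D D' : ℕ} (h : D ≤ D') : Lk V K D ≤ Lk V K D' := by
  refine Submodule.span_mono (Set.image_mono ?_)
  intro S hS
  exact le_trans hS h

theorem Lk_mul {D D' : ℕ} {f g : (V → Bool) → K} (hf : f ∈ Lk V K D) (hg : g ∈ Lk V K D') :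
    f * g ∈ Lk V K (D + D') := by
  refine Submodule.span_induction (p := fun f _ => f * g ∈ Lk V K (D + D')) ?_ ?_ ?_ ?_ hf
  · rintro _ ⟨S, hS, rfl⟩
    refine Submodule.span_induction (p := fun g _ => mon K S * g ∈ Lk V K (D + D')) ?_ ?_ ?_ ?_ hg
    · rintro _ ⟨T, hT, rfl⟩
      rw [mon_mul]
      exact mon_mem _ ((Finset.card_union_le S T).trans (Nat.add_le_add hS hT))
    · rw [mul_zero]
      exact Submodule.zero_mem _
    · intro a b _ _ ha hb
      rw [mul_add]
      exact Submodule.add_mem _ ha hb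
    · intro c a _ ha
      rw [mul_smul_comm]
      exact Submodule.smul_mem _ _ ha
  · rw [zero_mul]
    exact Submodule.zero_mem _
  · intro a b _ _ ha hb
    rw [add_mul]
    exact Submodule.add_mem _ ha hb
  · intro c a _ ha
    rw [smul_mul_assoc]
    exact Submodule.smul_mem _ _ ha

theorem Lk_one (D : ℕ) : (1 : (V → Bool) → K) ∈ Lk V K D := by
  have h := mon_mem (K := K) (D := D) (∅ : Finset V) (by simp)
  have e : mon K (∅ : Finset V) = 1 := by
    funext x
    simp [mon]
  rwa [e] at h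

theorem Lk_const (D : ℕ) (c : K) : (fun _ => c : (V → Bool) → K) ∈ Lk V K D := by
  have h := Submodule.smul_mem _ c (Lk_one (V := V) (K := K) D)
  have e : c • (1 : (V → Bool) → K) = fun _ => c := by
    funext x
    simp
  rwa [e] at h

theorem Lk_pow {D : ℕ} {f : (V → Bool) → K} (hf : f ∈ Lk V K D) (n : ℕ) :
    f ^ n ∈ Lk V K (n * D) := by
  induction n with
  | zero =>
    rw [pow_zero]
    exact Lk_one _
  | succ n ih =>
    rw [pow_succ, Nat.succ_mul]
    exact Lk_mul ih hf

theorem Lk_prod {ι : Type} (s : Finset ι) (f : ι → (V → Bool) → K) (D : ℕ)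
    (hf : ∀ i ∈ s, f i ∈ Lk V K D) : ∏ i ∈ s, f i ∈ Lk V K (s.card * D) := by
  classical
  induction s using Finset.induction_on with
  | empty =>
    rw [Finset.prod_empty]
    exact Lk_one _
  | insert a s ha ih =>
    rw [Finset.prod_insert ha, Finset.card_insert_of_notMem ha, Nat.succ_mul, add_comm]
    exact Lk_mul (hf a (Finset.mem_insert_self _ _))
      (ih (fun i hi => hf i (Finset.mem_insert_of_mem hi)))

theorem Lk_var (i : V) : (fun x => bk K (x i) : (V → Bool) → K) ∈ Lk V K 1 := by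
  have h := mon_mem (K := K) (D := 1) ({i} : Finset V) (by simp)
  have e : mon K ({i} : Finset V) = fun x => bk K (x i) := by
    funext x
    simp [mon]
  rwa [e] at h

/-- a Boolean function is of degree at most `D` -/
def LD (K : Type) [Field K] (D : ℕ) (b : (V → Bool) → Bool) : Prop :=
  (fun x => bk K (b x)) ∈ Lk V K D

theorem finrank_Lk_le (D : ℕ) : Module.finrank K (Lk V K D) ≤
    ∑ i ∈ Finset.range (D + 1), (Fintype.card V).choose i := by
  classical
  have h1 : (mon K '' {S : Finset V | S.card ≤ D} : Set ((V → Bool) → K)) =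
      ((Finset.univ.filter (fun S : Finset V => S.card ≤ D)).image (mon K) :
        Finset ((V → Bool) → K)) := by
    ext f
    simp
  unfold Lk
  rw [h1]
  refine (finrank_span_finset_le_card _).trans (Finset.card_image_le.trans ?_)
  have h2 : Finset.univ.filter (fun S : Finset V => S.card ≤ D) ⊆
      (Finset.range (D + 1)).biUnion (fun i => Finset.powersetCard i Finset.univ) := by
    intro S hS
    rw [Finset.mem_biUnion]
    exact ⟨S.card, Finset.mem_range.mpr (Nat.lt_succ_of_le (Finset.mem_filter.mp hS).2),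
      Finset.mem_powersetCard.mpr ⟨Finset.subset_univ _, rfl⟩⟩
  refine (Finset.card_le_card h2).trans (Finset.card_biUnion_le.trans ?_)
  refine Finset.sum_le_sum fun i _ => ?_
  rw [Finset.card_powersetCard, Finset.card_univ]

end PAM
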