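import Mathlib

/-!
# Sampling
-/

namespace PAM

open Finset

variable {Y : Type} [Fintype Y]

theorem sum_cons {N : ℕ} (f : (Fin (N + 1) → Y) → ℝ) :
    ∑ ys, f ys = ∑ y : Y, ∑ ys : Fin N → Y, f (Fin.cons y ys) := by
  rw [← Fintype.sum_prod_type']
  exact (Equiv.sum_comp (Fin.consEquiv (fun _ : Fin (N + 1) => Y)) f).symm

/-- the second moment of a sum of independent centred variables -/
theorem second_moment (φ : Y → ℝ) (hφ : ∑ y, φ y = 0) (N : ℕ) :
    (∑ ys : Fin N → Y, ∑ i, φ (ys i)) = 0 ∧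
    (Fintype.card Y : ℝ) * ∑ ys : Fin N → Y, (∑ i, φ (ys i)) ^ 2 =
      N * (Fintype.card Y : ℝ) ^ N * ∑ y, φ y ^ 2 := by
  induction N with
  | zero => simp
  | succ N ih =>
    obtain ⟨h1, h2⟩ := ih
    have hcard : (∑ _ys : Fin N → Y, (1 : ℝ)) = (Fintype.card Y : ℝ) ^ N := by
      rw [Finset.sum_const, Finset.card_univ, Fintype.card_pi_const, nsmul_eq_mul, mul_one]
      push_cast
      rfl
    have e1 : ∀ (y : Y) (ys : Fin N → Y), ∑ i : Fin (N + 1), φ ((Fin.cons y ys : Fin (N + 1) → Y) i) =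
        φ y + ∑ i, φ (ys i) := by
      intro y ys
      rw [Fin.sum_univ_succ]
      simp only [Fin.cons_zero, Fin.cons_succ]
    constructor
    · rw [sum_cons]
      simp only [e1]
      simp only [Finset.sum_add_distrib, h1, add_zero]
      have : ∀ y : Y, ∑ _ys : Fin N → Y, φ y = φ y * (Fintype.card Y : ℝ) ^ N := by
        intro y
        rw [← hcard, Finset.mul_sum]
        simp
      rw [Finset.sum_congr rfl fun y _ => this y, ← Finset.sum_mul, hφ, zero_mul]
    · rw [sum_cons]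
      simp only [e1]
      have e2 : ∀ y : Y, ∑ ys : Fin N → Y, (φ y + ∑ i, φ (ys i)) ^ 2 =
          φ y ^ 2 * (Fintype.card Y : ℝ) ^ N + ∑ ys : Fin N → Y, (∑ i, φ (ys i)) ^ 2 := by
        intro y
        have e3 : ∀ ys : Fin N → Y, (φ y + ∑ i, φ (ys i)) ^ 2 =
            φ y ^ 2 * 1 + 2 * φ y * (∑ i, φ (ys i)) + (∑ i, φ (ys i)) ^ 2 := fun ys => by ring
        rw [Finset.sum_congr rfl fun ys _ => e3 ys, Finset.sum_add_distrib, Finset.sum_add_distrib,
          ← Finset.mul_sum, ← Finset.mul_sum, hcard, h1, mul_zero, add_zero]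
      rw [Finset.sum_congr rfl fun y _ => e2 y, Finset.sum_add_distrib, ← Finset.sum_mul,
        Finset.sum_const, Finset.card_univ, nsmul_eq_mul, mul_add, h2]
      push_cast
      ring

/-- Chebyshev's inequality for the frequency of an event -/
theorem samp [Nonempty Y] (A : Y → Prop) [DecidablePred A] (N : ℕ) (hN : 0 < N) (τ : ℝ)
    (hτ : 0 < τ) :
    ((Finset.univ.filter (fun ys : Fin N → Y =>
      τ < |((Finset.univ.filter (fun i => A (ys i))).card : ℝ) / N -
        ((Finset.univ.filter A).card : ℝ) / Fintype.card Y|)).card : ℝ) * (N * τ ^ 2) ≤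
      (Fintype.card Y : ℝ) ^ N := by
  set c : ℝ := (Fintype.card Y : ℝ) with hc
  have hc0 : 0 < c := by
    rw [hc]
    exact_mod_cast Fintype.card_pos
  set π : ℝ := ((Finset.univ.filter A).card : ℝ) / c with hπ
  have hπ0 : 0 ≤ π := by positivity
  have hπ1 : π ≤ 1 := by
    rw [hπ, div_le_one hc0, hc]
    exact_mod_cast Finset.card_le_univ _
  let φ : Y → ℝ := fun y => (if A y then 1 else 0) - π
  have hφ : ∑ y, φ y = 0 := by
    simp only [φ]
    rw [Finset.sum_sub_distrib, Finset.sum_boole, Finset.sum_const, Finset.card_univ,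
      nsmul_eq_mul, ← hc, hπ, mul_div_cancel₀ _ hc0.ne', sub_self]
  have hφ2 : ∑ y, φ y ^ 2 ≤ c := by
    have h1 : ∀ y, φ y ^ 2 ≤ 1 := by
      intro y
      simp only [φ]
      split_ifs <;> nlinarith
    refine (Finset.sum_le_sum fun y _ => h1 y).trans ?_
    rw [Finset.sum_const, Finset.card_univ, nsmul_eq_mul, mul_one]
  obtain ⟨-, h2⟩ := second_moment φ hφ N
  have h3 : ∑ ys : Fin N → Y, (∑ i, φ (ys i)) ^ 2 ≤ N * c ^ N := by
    have h4 : c * ∑ ys : Fin N → Y, (∑ i, φ (ys i)) ^ 2 ≤ c * (N * c ^ N) := by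
      rw [h2]
      calc (N : ℝ) * c ^ N * ∑ y, φ y ^ 2 ≤ (N : ℝ) * c ^ N * c :=
            mul_le_mul_of_nonneg_left hφ2 (by positivity)
        _ = c * (N * c ^ N) := by ring
    exact le_of_mul_le_mul_left h4 hc0
  have hN' : (0 : ℝ) < N := by exact_mod_cast hN
  set B := Finset.univ.filter (fun ys : Fin N → Y =>
      τ < |((Finset.univ.filter (fun i => A (ys i))).card : ℝ) / N - π|) with hB
  have h4 : (B.card : ℝ) * (N * τ) ^ 2 ≤ ∑ ys : Fin N → Y, (∑ i, φ (ys i)) ^ 2 := by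
    calc (B.card : ℝ) * (N * τ) ^ 2 = ∑ _ys ∈ B, (N * τ) ^ 2 := by
          rw [Finset.sum_const, nsmul_eq_mul]
      _ ≤ ∑ ys ∈ B, (∑ i, φ (ys i)) ^ 2 := by
          refine Finset.sum_le_sum fun ys hys => ?_
          have h5 := (Finset.mem_filter.mp hys).2
          have h6 : ∑ i, φ (ys i) = N * (((Finset.univ.filter (fun i => A (ys i))).card : ℝ) / N - π) := by
            simp only [φ]
            rw [Finset.sum_sub_distrib, Finset.sum_boole, Finset.sum_const, Finset.card_univ,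
              nsmul_eq_mul, Fintype.card_fin, mul_sub, mul_div_cancel₀ _ hN'.ne']
          rw [h6, mul_pow, mul_pow, ← sq_abs (((Finset.univ.filter (fun i => A (ys i))).card : ℝ) / N - π)]
          exact mul_le_mul_of_nonneg_left (pow_le_pow_left₀ hτ.le h5.le 2) (by positivity)
      _ ≤ ∑ ys : Fin N → Y, (∑ i, φ (ys i)) ^ 2 :=
          Finset.sum_le_sum_of_subset_of_nonneg (Finset.subset_univ _) (fun _ _ _ => sq_nonneg _)
  have h5 : N * ((B.card : ℝ) * (N * τ ^ 2)) ≤ N * c ^ N := by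
    calc (N : ℝ) * ((B.card : ℝ) * (N * τ ^ 2)) = (B.card : ℝ) * (N * τ) ^ 2 := by ring
      _ ≤ _ := h4.trans h3
  exact le_of_mul_le_mul_left h5 hN'

end PAM
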