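import Pool.Agent.helper36.PAM.Blk
import Pool.Agent.helper36.PAM.Samp
import Pool.Agent.helper36.PAM.Dec

/-!
# A number plus a function of low degree is almost uniformly distributed modulo small primes
-/

namespace PAM

open Finset PAP

section Key

variable {K : Type} [Field K] (Q : Finset ℕ) [hF : ∀ i : {q // q ∈ Q}, Fact (Nat.Prime (i : ℕ))]

open Classical in
/-- the distribution of the number plus `F` modulo the primes in `Q` -/
noncomputable def mu {k : ℕ} (F : (Fin k → Bool) → RQ Q) (γ : RQ Q) : ℝ :=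
  ((Finset.univ.filter (fun z : Fin k → Bool => ((num z : ℕ) : RQ Q) + F z = γ)).card : ℝ) / 2 ^ k

theorem sum_mu {k : ℕ} (F : (Fin k → Bool) → RQ Q) : ∑ γ, mu Q F γ = 1 := by
  classical
  unfold mu
  rw [← Finset.sum_div, div_eq_one_iff_eq (by positivity)]
  have h := Finset.card_eq_sum_card_fiberwise (s := (Finset.univ : Finset (Fin k → Bool)))
    (t := (Finset.univ : Finset (RQ Q))) (f := fun z => ((num z : ℕ) : RQ Q) + F z)
    (fun _ _ => Finset.mem_univ _)
  rw [Finset.card_univ, Fintype.card_fun, Fintype.card_bool, Fintype.card_fin] at h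
  have h2 : (2 : ℝ) ^ k = ((2 ^ k : ℕ) : ℝ) := by push_cast; rfl
  rw [h2, h]
  push_cast
  refine Finset.sum_congr rfl fun γ _ => ?_
  congr 2

theorem key (i : {q // q ∈ Q}) (hi2 : (i : ℕ) ≠ 2) (ψ : AddChar (ZMod (i : ℕ)) K)
    (hψ : ψ.IsPrimitive) (η : ℝ) (hη : 0 < η) (N : ℕ)
    (hN : 64 * (Fintype.card (RQ Q) : ℝ) ^ 3 ≤ N * η ^ 2) (k M B D : ℕ) (hB : 0 < B)
    (hk : M * B ≤ k) (hM : 64 * (2 * (N * D) + 1) ^ 2 ≤ M)
    (hBM : 4 * (Fintype.card (RQ Q) : ℝ) * M ≤ η * 2 ^ B) (F : (Fin k → Bool) → RQ Q)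
    (hLD : ∀ γ, LD K D (fun z => decide (F z = γ))) (b : ZMod (i : ℕ)) (γ0 : RQ Q) :
    |mu Q F (γ0 + Pi.single i b) - mu Q F γ0| ≤ η := by
  classical
  by_contra hbig
  rw [not_le] at hbig
  set C : ℝ := (Fintype.card (RQ Q) : ℝ) with hC
  have hC0 : 0 < C := by
    rw [hC]
    exact_mod_cast Fintype.card_pos
  set τ : ℝ := η / (2 * C) with hτ
  have hτ0 : 0 < τ := by positivity
  have hN0 : 0 < N := by
    rcases Nat.eq_zero_or_pos N with h | h
    · exfalso
      rw [h] at hN
      push_cast at hN
      rw [zero_mul] at hN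
      have : 0 < 64 * C ^ 3 := by positivity
      linarith
    · exact h
  have hN0' : (0 : ℝ) < N := by exact_mod_cast hN0
  obtain ⟨dec, hdec⟩ := exists_decoder (Pi.evalAddMonoidHom (fun i : {q // q ∈ Q} => ZMod (i : ℕ)) i)
    (mu Q F) η τ hτ0.le (by
      rw [hτ, ← hC]
      have : 2 * (η / (2 * C)) * C = η := by field_simp
      rw [this]) (Pi.single i b) γ0 (fun h hh => rq_mult Q i b h hh) hbig
  have hcY : (Fintype.card (Fin k → Bool) : ℝ) = 2 ^ k := by
    have : Fintype.card (Fin k → Bool) = 2 ^ k := by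
      rw [Fintype.card_fun, Fintype.card_bool, Fintype.card_fin]
    rw [this]
    push_cast
    rfl
  let R : (Fin M → Bool) → (Fin k → Bool) → (Fin k → Bool) := fun x u => if u ∈ good k M B then add1 B x u else u
  let G1 : (Fin M → Bool) → (Fin k → Bool) → RQ Q := fun x u => F (R x u) + ((num u : ℕ) : RQ Q)
  let s' : (Fin M → Bool) → RQ Q := fun x =>
    ((∑ i : Fin M, (if x i = true then 2 ^ ((i : ℕ) * B) else 0) : ℕ) : RQ Q)
  -- the complement of the good strings
  have hU : (((good k M B)ᶜ).card : ℝ) / 2 ^ k ≤ τ / 2 := by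
    have h1 := card_not_good hk hB
    have h2 : (((good k M B)ᶜ).card : ℝ) * 2 ^ B ≤ M * 2 ^ k := by exact_mod_cast h1
    rw [div_le_iff₀ (by positivity)]
    have h3 : (M : ℝ) ≤ τ / 2 * 2 ^ B := by
      rw [hτ]
      have : η / (2 * C) / 2 * 2 ^ B = (η * 2 ^ B) / (4 * C) := by
        field_simp
        ring
      rw [this, le_div_iff₀ (by positivity)]
      linarith
    have h4 : (((good k M B)ᶜ).card : ℝ) * 2 ^ B ≤ (τ / 2 * 2 ^ k) * 2 ^ B := by
      calc (((good k M B)ᶜ).card : ℝ) * 2 ^ B ≤ M * 2 ^ k := h2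
        _ ≤ (τ / 2 * 2 ^ B) * 2 ^ k := mul_le_mul_of_nonneg_right h3 (by positivity)
        _ = (τ / 2 * 2 ^ k) * 2 ^ B := by ring
    exact le_of_mul_le_mul_right h4 (by positivity)
  -- the distribution of `G1 x` is a shift of `mu`
  have hA : ∀ (x : Fin M → Bool) (γ : RQ Q),
      |((Finset.univ.filter (fun u : (Fin k → Bool) => G1 x u = γ)).card : ℝ) / Fintype.card (Fin k → Bool) -
        mu Q F (γ + s' x)| ≤ τ / 2 := by
    intro x γ
    rw [hcY]
    set A1 := Finset.univ.filter (fun u : (Fin k → Bool) => G1 x u = γ) with hA1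
    set A2 := Finset.univ.filter (fun z : (Fin k → Bool) => ((num z : ℕ) : RQ Q) + F z = γ + s' x) with hA2
    have e : mu Q F (γ + s' x) = (A2.card : ℝ) / 2 ^ k := by
      unfold mu
      congr 2
    have hmap : ∀ u ∈ good k M B, (G1 x u = γ ↔
        ((num (add1 B x u) : ℕ) : RQ Q) + F (add1 B x u) = γ + s' x) := by
      intro u hu
      rw [num_add1 hk x hu hB]
      simp only [G1, R, s', if_pos hu]
      rw [Nat.cast_add]
      constructor
      · intro h
        rw [← h]
        ring
      · intro h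
        have h2 : F (add1 B x u) + ((num u : ℕ) : RQ Q) +
            ((∑ i : Fin M, (if x i = true then 2 ^ ((i : ℕ) * B) else 0) : ℕ) : RQ Q) =
            γ + ((∑ i : Fin M, (if x i = true then 2 ^ ((i : ℕ) * B) else 0) : ℕ) : RQ Q) := by
          rw [← h]
          ring
        exact add_right_cancel h2
    have hinj := add1_inj hk hB x
    have c1 : A1.card ≤ A2.card + ((good k M B)ᶜ).card := by
      have h1 : A1 ⊆ (A1.filter (fun u => u ∈ good k M B)) ∪ (good k M B)ᶜ := by
        intro u hu
        rw [Finset.mem_union, Finset.mem_filter, Finset.mem_compl]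
        by_cases h : u ∈ good k M B
        · exact Or.inl ⟨hu, h⟩
        · exact Or.inr h
      have h2 : (A1.filter (fun u => u ∈ good k M B)).card ≤ A2.card := by
        refine Finset.card_le_card_of_injOn (add1 B x) ?_ ?_
        · intro u hu
          rw [Finset.mem_coe, Finset.mem_filter] at hu
          rw [Finset.mem_coe, hA2, Finset.mem_filter]
          exact ⟨Finset.mem_univ _, (hmap u hu.2).1 (Finset.mem_filter.mp hu.1).2⟩
        · intro u hu u' hu' h
          rw [Finset.mem_coe, Finset.mem_filter] at hu hu'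
          exact hinj hu.2 hu'.2 h
      exact ((Finset.card_le_card h1).trans (Finset.card_union_le _ _)).trans
        (Nat.add_le_add_right h2 _)
    have c2 : A2.card ≤ A1.card + ((good k M B)ᶜ).card := by
      have h1 : A2 ⊆ (A1.filter (fun u => u ∈ good k M B)).image (add1 B x) ∪
          ((good k M B).image (add1 B x))ᶜ := by
        intro z hz
        rw [Finset.mem_union, Finset.mem_compl]
        by_cases h : z ∈ (good k M B).image (add1 B x)
        · left
          obtain ⟨u, hu, rfl⟩ := Finset.mem_image.mp h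
          refine Finset.mem_image.mpr ⟨u, Finset.mem_filter.mpr ⟨?_, hu⟩, rfl⟩
          rw [hA1, Finset.mem_filter]
          exact ⟨Finset.mem_univ _, (hmap u hu).2 (Finset.mem_filter.mp hz).2⟩
        · exact Or.inr h
      have h2 : (((good k M B).image (add1 B x))ᶜ).card = ((good k M B)ᶜ).card := by
        rw [Finset.card_compl, Finset.card_compl, Finset.card_image_of_injOn hinj]
      refine (Finset.card_le_card h1).trans ((Finset.card_union_le _ _).trans ?_)
      rw [h2]
      exact Nat.add_le_add_right (Finset.card_image_le.trans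
        (Finset.card_le_card (Finset.filter_subset _ _))) _
    rw [e, ← sub_div, abs_div, abs_of_pos (show (0 : ℝ) < 2 ^ k by positivity)]
    refine le_trans ?_ hU
    refine div_le_div_of_nonneg_right ?_ (by positivity)
    rw [abs_le]
    have c1' : (A1.card : ℝ) ≤ A2.card + ((good k M B)ᶜ).card := by exact_mod_cast c1
    have c2' : (A2.card : ℝ) ≤ A1.card + ((good k M B)ᶜ).card := by exact_mod_cast c2
    constructor <;> linarith
  -- the frequencies
  let ν : (Fin N → RQ Q) → RQ Q → ℝ := fun γs γ =>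
    ((Finset.univ.filter (fun i => γs i = γ)).card : ℝ) / N
  let Bad : (Fin M → Bool) → Finset (Fin N → (Fin k → Bool)) := fun x => Finset.univ.filter
    (fun ys => ¬ ∀ γ, |ν (fun i => G1 x (ys i)) γ - mu Q F (γ + s' x)| ≤ τ)
  have hBad : ∀ x, 4 * (Bad x).card ≤ Fintype.card (Fin k → Bool) ^ N := by
    intro x
    have h1 : Bad x ⊆ Finset.univ.biUnion (fun γ : RQ Q => Finset.univ.filter
        (fun ys : Fin N → (Fin k → Bool) => τ / 2 <
          |((Finset.univ.filter (fun i => G1 x (ys i) = γ)).card : ℝ) / N -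
            ((Finset.univ.filter (fun u => G1 x u = γ)).card : ℝ) / Fintype.card (Fin k → Bool)|)) := by
      intro ys hys
      have h2 := (Finset.mem_filter.mp hys).2
      push Not at h2
      obtain ⟨γ, hγ⟩ := h2
      rw [Finset.mem_biUnion]
      refine ⟨γ, Finset.mem_univ _, Finset.mem_filter.mpr ⟨Finset.mem_univ _, ?_⟩⟩
      have h3 := hA x γ
      have h4 := abs_sub_le (ν (fun i => G1 x (ys i)) γ)
        (((Finset.univ.filter (fun u => G1 x u = γ)).card : ℝ) / Fintype.card (Fin k → Bool))
        (mu Q F (γ + s' x))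
      by_contra h5
      rw [not_lt] at h5
      have h6 : |ν (fun i => G1 x (ys i)) γ - mu Q F (γ + s' x)| ≤ τ := by
        refine h4.trans ?_
        have : τ = τ / 2 + τ / 2 := by ring
        rw [this]
        exact add_le_add h5 h3
      linarith
    have h2 := (Finset.card_le_card h1).trans Finset.card_biUnion_le
    have h3 : ((Bad x).card : ℝ) * (N * (τ / 2) ^ 2) ≤ C * (Fintype.card (Fin k → Bool) : ℝ) ^ N := by
      calc ((Bad x).card : ℝ) * (N * (τ / 2) ^ 2)
          ≤ ((∑ γ : RQ Q, (Finset.univ.filter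
        (fun ys : Fin N → (Fin k → Bool) => τ / 2 <
          |((Finset.univ.filter (fun i => G1 x (ys i) = γ)).card : ℝ) / N -
            ((Finset.univ.filter (fun u => G1 x u = γ)).card : ℝ) / Fintype.card (Fin k → Bool)|)).card : ℕ) : ℝ) *
              (N * (τ / 2) ^ 2) :=
            mul_le_mul_of_nonneg_right (by exact_mod_cast h2) (by positivity)
        _ = ∑ γ : RQ Q, ((Finset.univ.filter
        (fun ys : Fin N → (Fin k → Bool) => τ / 2 <
          |((Finset.univ.filter (fun i => G1 x (ys i) = γ)).card : ℝ) / N -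
            ((Finset.univ.filter (fun u => G1 x u = γ)).card : ℝ) / Fintype.card (Fin k → Bool)|)).card : ℝ) *
              (N * (τ / 2) ^ 2) := by
            rw [Nat.cast_sum, Finset.sum_mul]
        _ ≤ ∑ _γ : RQ Q, (Fintype.card (Fin k → Bool) : ℝ) ^ N := by
            refine Finset.sum_le_sum fun γ _ => ?_
            exact samp (fun u => G1 x u = γ) N hN0 (τ / 2) (by positivity)
        _ = C * (Fintype.card (Fin k → Bool) : ℝ) ^ N := by
            rw [Finset.sum_const, Finset.card_univ, nsmul_eq_mul]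
    have h4 : 4 * C ≤ N * (τ / 2) ^ 2 := by
      have e1 : N * (τ / 2) ^ 2 = (N * η ^ 2) / (16 * C ^ 2) := by
        rw [hτ]
        field_simp
        ring
      rw [e1, le_div_iff₀ (by positivity)]
      calc 4 * C * (16 * C ^ 2) = 64 * C ^ 3 := by ring
        _ ≤ _ := hN
    have h5 : C * (4 * ((Bad x).card : ℝ)) ≤ C * (Fintype.card (Fin k → Bool) : ℝ) ^ N := by
      calc C * (4 * ((Bad x).card : ℝ)) = ((Bad x).card : ℝ) * (4 * C) := by ring
        _ ≤ ((Bad x).card : ℝ) * (N * (τ / 2) ^ 2) := mul_le_mul_of_nonneg_left h4 (by positivity)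
        _ ≤ _ := h3
    have h6 := le_of_mul_le_mul_left h5 hC0
    exact_mod_cast h6
  -- a good tuple of samples
  obtain ⟨ys, hys⟩ : ∃ ys : Fin N → (Fin k → Bool),
      4 * (Finset.univ.filter (fun x : Fin M → Bool => ys ∈ Bad x)).card ≤ 2 ^ M := by
    refine exists_le_avg (fun ys : Fin N → (Fin k → Bool) =>
      4 * (Finset.univ.filter (fun x : Fin M → Bool => ys ∈ Bad x)).card) (2 ^ M) ?_
    calc ∑ ys : Fin N → (Fin k → Bool), 4 * (Finset.univ.filter (fun x : Fin M → Bool => ys ∈ Bad x)).card
        = ∑ x : Fin M → Bool, 4 * (Bad x).card := by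
          rw [← Finset.mul_sum, ← Finset.mul_sum]
          congr 1
          simp only [Finset.card_filter]
          rw [Finset.sum_comm]
          refine Finset.sum_congr rfl fun x _ => ?_
          rw [Finset.sum_boole, Finset.filter_mem_eq_inter, Finset.univ_inter, Nat.cast_id]
      _ ≤ ∑ _x : Fin M → Bool, Fintype.card (Fin k → Bool) ^ N := Finset.sum_le_sum fun x _ => hBad x
      _ = 2 ^ M * Fintype.card (Fin N → (Fin k → Bool)) := by
          rw [Finset.sum_const, Finset.card_univ, Fintype.card_pi_const Bool M, Fintype.card_bool,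
            smul_eq_mul, Fintype.card_pi_const (Fin k → Bool) N]
  -- the function of low degree
  have hdeg : (fun x => ψ (dec (ν (fun i => G1 x (ys i)))) : (Fin M → Bool) → K) ∈
      Lk (Fin M) K (N * D) := by
    have e : (fun x => ψ (dec (ν (fun i => G1 x (ys i)))) : (Fin M → Bool) → K) =
        ∑ γs : Fin N → RQ Q, ψ (dec (ν γs)) •
          (fun x => bk K (decide (∀ i, decide (G1 x (ys i) = γs i) = true))) := by
      funext x
      rw [Finset.sum_apply, Finset.sum_eq_single (fun i => G1 x (ys i))]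
      · rw [Pi.smul_apply, smul_eq_mul]
        have h : ∀ i, decide (G1 x (ys i) = G1 x (ys i)) = true := fun i => by simp
        rw [decide_eq_true h]
        simp [bk]
      · intro γs _ hγs
        rw [Pi.smul_apply, smul_eq_mul]
        have h : ¬ ∀ i, decide (G1 x (ys i) = γs i) = true := by
          intro h
          apply hγs
          funext i
          exact (of_decide_eq_true (h i)).symm
        rw [decide_eq_false h]
        simp [bk]
      · intro h
        exact absurd (Finset.mem_univ _) h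
    rw [e]
    refine Submodule.sum_mem _ fun γs _ => Submodule.smul_mem _ _ ?_
    refine LD_all (fun i x => decide (G1 x (ys i) = γs i)) (fun i => ?_)
    have e2 : (fun x => decide (G1 x (ys i) = γs i)) = fun x : Fin M → Bool =>
        (fun z => decide (F z = γs i - ((num (ys i) : ℕ) : RQ Q))) (R x (ys i)) := by
      funext x
      simp only [G1]
      congr 1
      rw [eq_sub_iff_add_eq]
    rw [e2]
    refine Lk_comp (fun x => R x (ys i)) (fun v => ?_) (hLD _)
    by_cases hg : ys i ∈ good k M B
    · simp only [R, if_pos hg]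
      exact add1_mem _ _
    · simp only [R, if_neg hg]
      exact Lk_const _ _
  have hi2' : (2 : ZMod (i : ℕ)) ≠ 0 := by
    intro h0
    have h4 : ((2 : ℕ) : ZMod (i : ℕ)) = 0 := by exact_mod_cast h0
    rw [ZMod.natCast_eq_zero_iff] at h4
    exact hi2 ((Nat.prime_dvd_prime_iff_eq (hF i).out Nat.prime_two).1 h4)
  have hψ1 : ∀ a : ZMod (i : ℕ), ψ a = 1 → a = 0 := fun a ha =>
    (AddChar.IsPrimitive.zmod_char_eq_one_iff (i : ℕ) hψ a).1 ha
  have hs := smol (K := K) (V := Fin M) (fun l : Fin M => ψ ((2 : ZMod (i : ℕ)) ^ ((l : ℕ) * B)))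
    (fun l => (ψ.val_isUnit _).ne_zero) (fun l h => pow_ne_zero _ hi2' (hψ1 _ h)) (N * D)
    (by rw [Fintype.card_fin]; exact hM) _ hdeg
    (Finset.univ.filter (fun x : Fin M → Bool => ys ∉ Bad x)) (by
      intro x hx
      have h1 : ∀ γ, |ν (fun i => G1 x (ys i)) γ - mu Q F (γ + s' x)| ≤ τ := by
        by_contra h
        exact (Finset.mem_filter.mp hx).2 (Finset.mem_filter.mpr ⟨Finset.mem_univ _, h⟩)
      have h2 := hdec (s' x) _ h1
      rw [prod_aff ψ (fun l : Fin M => (2 : ZMod (i : ℕ)) ^ ((l : ℕ) * B)) x]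
      show _ = ψ (dec (ν (fun i => G1 x (ys i))))
      rw [h2]
      congr 1
      show ws _ x = s' x i
      simp only [s', ws]
      rw [Pi.natCast_apply]
      push_cast
      rfl)
  have h3 := Finset.card_filter_add_card_filter_not (s := (Finset.univ : Finset (Fin M → Bool)))
    (fun x => ys ∈ Bad x)
  rw [Finset.card_univ, Fintype.card_pi_const Bool M, Fintype.card_bool] at h3
  rw [Fintype.card_fin] at hs
  have h4 : 0 < 2 ^ M := by positivity
  omega

end Key

end PAM
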