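import Pool.Agent.helper36.PAM.Deg

/-!
# A polynomial of low degree agrees with a character only on about half of the cube
-/

namespace PAM

open Finset

variable {V : Type} [Fintype V] [DecidableEq V] {K : Type} [Field K]

/-- substitution of variables does not increase the degree -/
theorem Lk_comp {V' : Type} [Fintype V'] [DecidableEq V'] (σ : (V' → Bool) → (V → Bool))
    (hσ : ∀ v, (fun x => bk K (σ x v) : (V' → Bool) → K) ∈ Lk V' K 1) {D : ℕ}
    {f : (V → Bool) → K} (hf : f ∈ Lk V K D) : (fun x => f (σ x)) ∈ Lk V' K D := by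
  refine Submodule.span_induction (p := fun f _ => (fun x => f (σ x)) ∈ Lk V' K D) ?_ ?_ ?_ ?_ hf
  · rintro _ ⟨S, hS, rfl⟩
    have h := Lk_prod S (fun v => (fun x => bk K (σ x v) : (V' → Bool) → K)) 1 (fun v _ => hσ v)
    rw [mul_one] at h
    have e : (fun x => mon K S (σ x)) = ∏ v ∈ S, (fun x => bk K (σ x v) : (V' → Bool) → K) := by
      funext x
      rw [Finset.prod_apply]
      rfl
    rw [e]
    exact Lk_mono hS h
  · exact Submodule.zero_mem _
  · intro a b _ _ ha hb
    exact Submodule.add_mem _ ha hb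
  · intro c a _ ha
    exact Submodule.smul_mem _ c ha

/-- the function `u` at false, `v` at true, of one variable -/
def aff (u v : K) (b : Bool) : K := if b = true then v else u

theorem aff_mem (u v : K) (i : V) : (fun x => aff u v (x i) : (V → Bool) → K) ∈ Lk V K 1 := by
  have e : (fun x => aff u v (x i) : (V → Bool) → K) =
      (fun _ => u) + (v - u) • (fun x => bk K (x i)) := by
    funext x
    simp only [Pi.add_apply, Pi.smul_apply, smul_eq_mul]
    unfold aff bk
    split_ifs <;> ring
  rw [e]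
  exact Submodule.add_mem _ (Lk_const 1 u) (Submodule.smul_mem _ _ (Lk_var i))

/-- restriction to a set -/
def resL (K : Type) [Field K] (G : Finset (V → Bool)) : ((V → Bool) → K) →ₗ[K] (G → K) where
  toFun f x := f x.1
  map_add' _ _ := rfl
  map_smul' _ _ := rfl

theorem smol_surj (c : V → K) (hc0 : ∀ i, c i ≠ 0) (hc1 : ∀ i, c i ≠ 1) (D : ℕ)
    (g : (V → Bool) → K) (hg : g ∈ Lk V K D) (G : Finset (V → Bool))
    (hG : ∀ x ∈ G, ∏ i, aff 1 (c i) (x i) = g x) :
    (Lk V K (Fintype.card V / 2 + D)).map (resL K G) = ⊤ := by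
  classical
  set n := Fintype.card V with hn
  -- the products of the y_i
  have hy : ∀ S : Finset V, resL K G (fun x => ∏ i ∈ S, aff 1 (c i) (x i)) ∈
      (Lk V K (n / 2 + D)).map (resL K G) := by
    intro S
    by_cases hS : S.card ≤ n / 2
    · refine Submodule.mem_map_of_mem ?_
      have h := Lk_prod S (fun i => (fun x => aff 1 (c i) (x i) : (V → Bool) → K)) 1
        (fun i _ => aff_mem 1 (c i) i)
      rw [mul_one] at h
      have e : (fun x => ∏ i ∈ S, aff 1 (c i) (x i)) =
          ∏ i ∈ S, (fun x => aff 1 (c i) (x i) : (V → Bool) → K) := by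
        funext x
        rw [Finset.prod_apply]
      rw [e]
      exact Lk_mono (hS.trans (Nat.le_add_right _ _)) h
    · have h := Lk_prod Sᶜ (fun i => (fun x => aff 1 (c i)⁻¹ (x i) : (V → Bool) → K)) 1
        (fun i _ => aff_mem 1 (c i)⁻¹ i)
      rw [mul_one] at h
      have h2 := Lk_mul h hg
      have h3 : Sᶜ.card + D ≤ n / 2 + D := by
        rw [Finset.card_compl]
        have : S.card ≤ n := Finset.card_le_univ S
        omega
      have h4 := Lk_mono h3 h2
      refine ⟨_, h4, ?_⟩
      funext x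
      show (∏ i ∈ Sᶜ, (fun x => aff 1 (c i)⁻¹ (x i) : (V → Bool) → K)) x.1 * g x.1 =
        ∏ i ∈ S, aff 1 (c i) (x.1 i)
      rw [← hG x.1 x.2, Finset.prod_apply, ← Finset.prod_mul_prod_compl S, mul_comm, mul_assoc,
        ← Finset.prod_mul_distrib]
      rw [Finset.prod_eq_one (s := Sᶜ), mul_one]
      intro i _
      unfold aff
      split_ifs
      · exact mul_inv_cancel₀ (hc0 i)
      · exact one_mul 1
  rw [eq_top_iff]
  intro f _
  -- the function f as a combination
  have h1 : f = ∑ a : G, f a • resL K G (fun x => ∏ i, aff (if a.1 i = true then 0 else 1)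
      (if a.1 i = true then 1 else 0) (x i)) := by
    funext x
    rw [Finset.sum_apply, Finset.sum_eq_single x]
    · rw [Pi.smul_apply, smul_eq_mul]
      show f x = f x * ∏ i, aff (if x.1 i = true then 0 else 1)
        (if x.1 i = true then 1 else 0) (x.1 i)
      rw [Finset.prod_eq_one, mul_one]
      intro i _
      unfold aff
      cases x.1 i <;> simp
    · intro a _ hax
      rw [Pi.smul_apply, smul_eq_mul]
      show f a * ∏ i, aff (if a.1 i = true then 0 else 1)
        (if a.1 i = true then 1 else 0) (x.1 i) = 0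
      have h2 : ∃ i, a.1 i ≠ x.1 i := by
        by_contra hcon
        push Not at hcon
        exact hax (Subtype.ext (funext hcon))
      obtain ⟨i, hi⟩ := h2
      rw [Finset.prod_eq_zero (Finset.mem_univ i), mul_zero]
      unfold aff
      revert hi
      cases a.1 i <;> cases x.1 i <;> simp
    · intro h
      exact absurd (Finset.mem_univ _) h
  rw [h1]
  refine Submodule.sum_mem _ fun a _ => Submodule.smul_mem _ _ ?_
  have h2 : ∀ (a : V → Bool) (i : V) (b : Bool), aff (if a i = true then (0 : K) else 1)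
      (if a i = true then 1 else 0) b =
      (if a i = true then (c i - 1)⁻¹ else -(c i - 1)⁻¹) * aff 1 (c i) b +
        (if a i = true then -(c i - 1)⁻¹ else 1 + (c i - 1)⁻¹) := by
    intro a i b
    have h3 : c i - 1 ≠ 0 := sub_ne_zero.mpr (hc1 i)
    unfold aff
    cases a i <;> cases b <;> simp <;> field_simp <;> ring
  have h3 : (fun x => ∏ i, aff (if a.1 i = true then (0 : K) else 1)
      (if a.1 i = true then 1 else 0) (x i) : (V → Bool) → K) =
      ∑ S ∈ (Finset.univ : Finset V).powerset,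
        ((∏ i ∈ S, (if a.1 i = true then (c i - 1)⁻¹ else -(c i - 1)⁻¹)) *
          ∏ i ∈ Finset.univ \ S, (if a.1 i = true then -(c i - 1)⁻¹ else 1 + (c i - 1)⁻¹)) •
        (fun x => ∏ i ∈ S, aff 1 (c i) (x i)) := by
    funext x
    rw [Finset.sum_apply, Finset.prod_congr rfl (fun i _ => h2 a.1 i (x i)), Finset.prod_add]
    refine Finset.sum_congr rfl fun S _ => ?_
    rw [Pi.smul_apply, smul_eq_mul, Finset.prod_mul_distrib]
    ring
  rw [h3, map_sum]
  refine Submodule.sum_mem _ fun S _ => ?_
  rw [map_smul]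
  exact Submodule.smul_mem _ _ (hy S)

theorem card_le_sum_choose (c : V → K) (hc0 : ∀ i, c i ≠ 0) (hc1 : ∀ i, c i ≠ 1) (D : ℕ)
    (g : (V → Bool) → K) (hg : g ∈ Lk V K D) (G : Finset (V → Bool))
    (hG : ∀ x ∈ G, ∏ i, aff 1 (c i) (x i) = g x) :
    G.card ≤ ∑ i ∈ Finset.range (Fintype.card V / 2 + D + 1), (Fintype.card V).choose i := by
  have h1 := smol_surj c hc0 hc1 D g hg G hG
  have h2 : Module.finrank K (G → K) = G.card := by
    rw [Module.finrank_fintype_fun_eq_card, Fintype.card_coe]
  have h3 := Submodule.finrank_map_le (resL K G) (Lk V K (Fintype.card V / 2 + D))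
  rw [h1, finrank_top, h2] at h3
  exact h3.trans (finrank_Lk_le _)

theorem central_sq (m : ℕ) : (2 * m + 1) * (Nat.centralBinom m) ^ 2 ≤ 16 ^ m := by
  induction m with
  | zero => simp
  | succ m ih =>
    have h1 := Nat.succ_mul_centralBinom_succ m
    -- (m + 1) * centralBinom (m + 1) = 2 * (2 * m + 1) * centralBinom m
    have h2 : (m + 1) ^ 2 * ((2 * (m + 1) + 1) * (Nat.centralBinom (m + 1)) ^ 2) ≤
        (m + 1) ^ 2 * 16 ^ (m + 1) := by
      calc (m + 1) ^ 2 * ((2 * (m + 1) + 1) * (Nat.centralBinom (m + 1)) ^ 2)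
          = (2 * m + 3) * ((m + 1) * Nat.centralBinom (m + 1)) ^ 2 := by ring
        _ = (2 * m + 3) * (2 * (2 * m + 1) * Nat.centralBinom m) ^ 2 := by
            rw [← h1]
        _ = 4 * ((2 * m + 3) * (2 * m + 1)) * ((2 * m + 1) * (Nat.centralBinom m) ^ 2) := by ring
        _ ≤ 4 * (4 * (m + 1) ^ 2) * 16 ^ m := by
            refine Nat.mul_le_mul (Nat.mul_le_mul_left _ ?_) ih
            nlinarith
        _ = (m + 1) ^ 2 * 16 ^ (m + 1) := by ring
    exact Nat.le_of_mul_le_mul_left h2 (by positivity)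

theorem middle_sq (n : ℕ) : n * (n.choose (n / 2)) ^ 2 ≤ 4 ^ n := by
  rcases Nat.even_or_odd' n with ⟨m, rfl | rfl⟩
  · have h := central_sq m
    have e : 2 * m / 2 = m := by omega
    rw [e]
    have e2 : (2 * m).choose m = Nat.centralBinom m := rfl
    rw [e2]
    have e3 : (4 : ℕ) ^ (2 * m) = 16 ^ m := by
      rw [pow_mul]
      norm_num
    rw [e3]
    refine le_trans (Nat.mul_le_mul_right _ ?_) h
    omega
  · have h := central_sq m
    have e : (2 * m + 1) / 2 = m := by omega
    rw [e]
    have h2 : (2 * m + 1).choose m ≤ 2 * Nat.centralBinom m := by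
      rcases Nat.eq_zero_or_pos m with rfl | hm
      · simp
      · obtain ⟨m', rfl⟩ : ∃ m', m = m' + 1 := ⟨m - 1, by omega⟩
        have h3 : (2 * (m' + 1) + 1).choose (m' + 1) =
            (2 * (m' + 1)).choose m' + (2 * (m' + 1)).choose (m' + 1) :=
          Nat.choose_succ_succ _ _
        have h4 : (2 * (m' + 1)).choose m' ≤ Nat.centralBinom (m' + 1) :=
          Nat.choose_le_centralBinom _ _
        have h5 : (2 * (m' + 1)).choose (m' + 1) = Nat.centralBinom (m' + 1) := rfl
        omega
    calc (2 * m + 1) * ((2 * m + 1).choose m) ^ 2 ≤ (2 * m + 1) * (2 * Nat.centralBinom m) ^ 2 :=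
          Nat.mul_le_mul_left _ (Nat.pow_le_pow_left h2 2)
      _ = 4 * ((2 * m + 1) * (Nat.centralBinom m) ^ 2) := by ring
      _ ≤ 4 * 16 ^ m := Nat.mul_le_mul_left _ h
      _ = 4 ^ (2 * m + 1) := by
          rw [pow_succ, pow_mul]
          norm_num
          ring

theorem two_mul_sum_choose (n D : ℕ) :
    2 * ∑ i ∈ Finset.range (n / 2 + D + 1), n.choose i ≤
      2 ^ n + (2 * D + 1) * n.choose (n / 2) := by
  classical
  set A := (Finset.range (n + 1)).filter (fun i => i ≤ n / 2 + D) with hA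
  set B := (Finset.range (n + 1)).filter (fun i => n ≤ i + (n / 2 + D)) with hB
  have h1 : ∑ i ∈ Finset.range (n / 2 + D + 1), n.choose i = ∑ i ∈ A, n.choose i := by
    have h2 : A ⊆ Finset.range (n / 2 + D + 1) := by
      intro i hi
      rw [Finset.mem_range]
      have := (Finset.mem_filter.mp hi).2
      omega
    refine (Finset.sum_subset h2 ?_).symm
    intro i hi hiA
    rw [Finset.mem_range] at hi
    refine Nat.choose_eq_zero_of_lt ?_
    by_contra hcon
    apply hiA
    rw [hA, Finset.mem_filter, Finset.mem_range]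
    omega
  have h2 : ∑ i ∈ A, n.choose i = ∑ i ∈ B, n.choose i := by
    refine Finset.sum_nbij' (fun i => n - i) (fun i => n - i) ?_ ?_ ?_ ?_ ?_
    · intro i hi
      rw [hA, Finset.mem_filter, Finset.mem_range] at hi
      rw [hB, Finset.mem_filter, Finset.mem_range]
      omega
    · intro i hi
      rw [hB, Finset.mem_filter, Finset.mem_range] at hi
      rw [hA, Finset.mem_filter, Finset.mem_range]
      omega
    · intro i hi
      rw [hA, Finset.mem_filter, Finset.mem_range] at hi
      show n - (n - i) = i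
      omega
    · intro i hi
      rw [hB, Finset.mem_filter, Finset.mem_range] at hi
      show n - (n - i) = i
      omega
    · intro i hi
      rw [hA, Finset.mem_filter, Finset.mem_range] at hi
      exact (Nat.choose_symm (by omega)).symm
  have h3 : 2 * ∑ i ∈ A, n.choose i = ∑ i ∈ A ∪ B, n.choose i + ∑ i ∈ A ∩ B, n.choose i := by
    rw [Finset.sum_union_inter, two_mul]
    nth_rewrite 2 [h2]
    rfl
  have h4 : ∑ i ∈ A ∪ B, n.choose i ≤ 2 ^ n := by
    rw [← Nat.sum_range_choose n]
    refine Finset.sum_le_sum_of_subset (Finset.union_subset ?_ ?_)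
    · exact Finset.filter_subset _ _
    · exact Finset.filter_subset _ _
  have h5 : ∑ i ∈ A ∩ B, n.choose i ≤ (2 * D + 1) * n.choose (n / 2) := by
    have h6 : (A ∩ B).card ≤ 2 * D + 1 := by
      have h7 : A ∩ B ⊆ Finset.Icc (n - (n / 2 + D)) (n / 2 + D) := by
        intro i hi
        rw [Finset.mem_inter, hA, hB, Finset.mem_filter, Finset.mem_filter] at hi
        rw [Finset.mem_Icc]
        omega
      refine (Finset.card_le_card h7).trans ?_
      rw [Nat.card_Icc]
      omega
    refine (Finset.sum_le_card_nsmul _ _ _ (fun i _ => Nat.choose_le_middle i n)).trans ?_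
    rw [smul_eq_mul]
    exact Nat.mul_le_mul_right _ h6
  rw [h1, h3]
  exact Nat.add_le_add h4 h5

/-- Smolensky's bound -/
theorem smol (c : V → K) (hc0 : ∀ i, c i ≠ 0) (hc1 : ∀ i, c i ≠ 1) (D : ℕ)
    (hD : 64 * (2 * D + 1) ^ 2 ≤ Fintype.card V)
    (g : (V → Bool) → K) (hg : g ∈ Lk V K D) (G : Finset (V → Bool))
    (hG : ∀ x ∈ G, ∏ i, aff 1 (c i) (x i) = g x) :
    16 * G.card ≤ 9 * 2 ^ Fintype.card V := by
  have h1 := card_le_sum_choose c hc0 hc1 D g hg G hG
  have h2 := two_mul_sum_choose (Fintype.card V) D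
  have h3 := middle_sq (Fintype.card V)
  set n := Fintype.card V with hn
  set M := n.choose (n / 2) with hM
  have h4 : (8 * ((2 * D + 1) * M)) ^ 2 ≤ (2 ^ n) ^ 2 := by
    calc (8 * ((2 * D + 1) * M)) ^ 2 = (64 * (2 * D + 1) ^ 2) * M ^ 2 := by ring
      _ ≤ n * M ^ 2 := Nat.mul_le_mul_right _ hD
      _ ≤ 4 ^ n := h3
      _ = (2 ^ n) ^ 2 := by
          rw [← pow_mul, mul_comm, pow_mul]
          norm_num
  have h5 : 8 * ((2 * D + 1) * M) ≤ 2 ^ n := (Nat.pow_le_pow_iff_left (by norm_num)).mp h4
  omega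

end PAM
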