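import Pool.Agent.helper36.PAM.Razb
import Pool.Agent.helper36.PAM.Smol

/-!
# Lists of low degree do not contain the weighted sum of the bits modulo `q`
-/

namespace PAM

open Finset

/-! ### characters -/

section Char

variable {K : Type} [Field K] {q : ℕ} [Fact q.Prime]

/-- weighted sum of the bits -/
def ws {V : Type} [Fintype V] (α : V → ZMod q) (x : V → Bool) : ZMod q :=
  ∑ v, if x v = true then α v else 0

/-- the list given by Boolean functions -/
def lst {V : Type} (T : ZMod q → (V → Bool) → Bool) (x : V → Bool) : Finset (ZMod q) :=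
  Finset.univ.filter (fun c => T c x = true)

theorem map_sum_prod {ι : Type} (ψ : AddChar (ZMod q) K) (s : Finset ι) (f : ι → ZMod q) :
    ψ (∑ i ∈ s, f i) = ∏ i ∈ s, ψ (f i) := by
  classical
  induction s using Finset.induction_on with
  | empty => simp
  | insert a s ha ih => rw [Finset.sum_insert ha, Finset.prod_insert ha, AddChar.map_add_eq_mul, ih]

theorem prod_aff {V : Type} [Fintype V] (ψ : AddChar (ZMod q) K) (α : V → ZMod q)
    (x : V → Bool) : ∏ i, aff 1 (ψ (α i)) (x i) = ψ (ws α x) := by
  unfold ws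
  rw [map_sum_prod]
  refine Finset.prod_congr rfl fun i _ => ?_
  unfold aff
  split_ifs
  · rfl
  · exact (AddChar.map_zero_eq_one ψ).symm

/-- a proper nonempty set has a nonvanishing Fourier coefficient -/
theorem exists_coeff (ψ : AddChar (ZMod q) K) (hψ : ψ.IsPrimitive) (hq : (q : K) ≠ 0)
    (S : Finset (ZMod q)) (h0 : S.Nonempty) (h1 : S.card < q) :
    ∃ j : ZMod q, j ≠ 0 ∧ ∑ c ∈ S, ψ (j * c) ≠ 0 := by
  by_contra hcon
  push Not at hcon
  have key : ∀ b : ZMod q, (S.card : K) = if b ∈ S then (q : K) else 0 := by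
    intro b
    have e1 : ∑ j : ZMod q, ψ (-(j * b)) * ∑ c ∈ S, ψ (j * c) = (S.card : K) := by
      rw [Finset.sum_eq_single (0 : ZMod q)]
      · simp
      · intro j _ hj
        rw [hcon j hj, mul_zero]
      · intro h
        exact absurd (Finset.mem_univ _) h
    have e2 : ∑ j : ZMod q, ψ (-(j * b)) * ∑ c ∈ S, ψ (j * c) =
        ∑ c ∈ S, ∑ j : ZMod q, ψ (j * (c - b)) := by
      rw [Finset.sum_comm]
      refine Finset.sum_congr rfl fun j _ => ?_
      rw [Finset.mul_sum]
      refine Finset.sum_congr rfl fun c _ => ?_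
      rw [← AddChar.map_add_eq_mul]
      congr 1
      ring
    rw [← e1, e2]
    have e3 : ∀ c : ZMod q, ∑ j : ZMod q, ψ (j * (c - b)) = if c = b then (q : K) else 0 := by
      intro c
      rw [AddChar.sum_mulShift (c - b) hψ, ZMod.card]
      by_cases hcb : c = b
      · simp [hcb]
      · simp [hcb, sub_ne_zero.2 hcb]
    simp only [e3]
    rw [Finset.sum_ite_eq']
  obtain ⟨b, hb⟩ := h0
  obtain ⟨b', hb'⟩ : ∃ b' : ZMod q, b' ∉ S := by
    by_contra h
    push Not at h
    have : S = Finset.univ := Finset.eq_univ_iff_forall.2 h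
    rw [this, Finset.card_univ, ZMod.card] at h1
    exact lt_irrefl _ h1
  have k1 := key b
  have k2 := key b'
  rw [if_pos hb] at k1
  rw [if_neg hb'] at k2
  exact hq (k1.symm.trans k2)

theorem count_le (ψ : AddChar (ZMod q) K) (hψ : ψ.IsPrimitive) (hq : (q : K) ≠ 0) {D : ℕ}
    {V : Type} [Fintype V] [DecidableEq V] (hD : 64 * (2 * D + 1) ^ 2 ≤ Fintype.card V)
    (α : V → ZMod q) (hα : ∀ v, α v ≠ 0) (T : ZMod q → (V → Bool) → Bool)
    (hT : ∀ c, LD K D (T c)) (S : Finset (ZMod q)) (h0 : S.Nonempty) (h1 : S.card < q) :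
    16 * (Finset.univ.filter (fun y : V → Bool =>
      ∀ c, (T (c + ws α y) y = true ↔ c ∈ S))).card ≤ 9 * 2 ^ Fintype.card V := by
  classical
  obtain ⟨j, hj, hS⟩ := exists_coeff ψ hψ hq S h0 h1
  set σ := ∑ c ∈ S, ψ (j * c) with hσ
  have hψ1 : ∀ a : ZMod q, ψ a = 1 → a = 0 := fun a ha =>
    (AddChar.IsPrimitive.zmod_char_eq_one_iff q hψ a).1 ha
  refine smol (K := K) (fun v => ψ (j * α v)) (fun v => ?_) (fun v h => ?_) D hD
    (σ⁻¹ • ∑ c : ZMod q, ψ (j * c) • fun y => bk K (T c y)) ?_ _ ?_
  · exact (ψ.val_isUnit _).ne_zero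
  · exact mul_ne_zero hj (hα v) (hψ1 _ h)
  · exact Submodule.smul_mem _ _ (Submodule.sum_mem _ fun c _ => Submodule.smul_mem _ _ (hT c))
  · intro y hy
    rw [Finset.mem_filter] at hy
    rw [prod_aff ψ (fun v => j * α v) y, Pi.smul_apply, Finset.sum_apply, smul_eq_mul]
    have e1 : ws (fun v => j * α v) y = j * ws α y := by
      unfold ws
      rw [Finset.mul_sum]
      refine Finset.sum_congr rfl fun v _ => ?_
      split_ifs
      · rfl
      · rw [mul_zero]
    have e2 : ∑ c : ZMod q, (ψ (j * c) • fun y => bk K (T c y)) y = ψ (j * ws α y) * σ := by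
      rw [← Equiv.sum_comp (Equiv.addRight (ws α y)), hσ, Finset.mul_sum]
      have e3 : ∀ c : ZMod q, (ψ (j * (Equiv.addRight (ws α y) c)) •
          fun y => bk K (T (Equiv.addRight (ws α y) c) y)) y =
          if c ∈ S then ψ (j * ws α y) * ψ (j * c) else 0 := by
        intro c
        rw [Pi.smul_apply, smul_eq_mul, Equiv.coe_addRight, mul_add, AddChar.map_add_eq_mul]
        have h2 := hy.2 c
        unfold bk
        by_cases hc : c ∈ S
        · rw [if_pos (h2.2 hc), if_pos hc]
          ring
        · rw [if_neg (fun h => hc (h2.1 h)), if_neg hc, mul_zero]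
      refine (Finset.sum_congr rfl fun c _ => e3 c).trans ?_
      rw [Finset.sum_ite_mem, Finset.univ_inter]
    rw [e1, e2, mul_comm (σ⁻¹), mul_assoc, mul_inv_cancel₀ hS, mul_one]

end Char

/-! ### splitting the variables -/

section Split

variable {V : Type} [Fintype V] [DecidableEq V] (S : Finset V)

/-- the point with given coordinates in `S` and outside `S` -/
def glue (x : {v // v ∈ S} → Bool) (y : {v // v ∉ S} → Bool) : V → Bool := fun v =>
  if h : v ∈ S then x ⟨v, h⟩ else y ⟨v, h⟩

variable {K : Type} [Field K] {D : ℕ} {b : (V → Bool) → Bool}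

theorem LD_glue1 (hb : LD K D b) (y : {v // v ∉ S} → Bool) :
    LD K D (fun x => b (glue S x y)) := by
  refine Lk_comp (fun x => glue S x y) (fun v => ?_) hb
  by_cases h : v ∈ S
  · have e : (fun x => bk K (glue S x y v) : ({v // v ∈ S} → Bool) → K) =
        fun x => bk K (x ⟨v, h⟩) := by
      funext x
      simp [glue, h]
    rw [e]
    exact Lk_var _
  · have e : (fun x => bk K (glue S x y v) : ({v // v ∈ S} → Bool) → K) =
        fun _ => bk K (y ⟨v, h⟩) := by
      funext x
      simp [glue, h]
    rw [e]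
    exact Lk_const _ _

theorem LD_glue2 (hb : LD K D b) (x : {v // v ∈ S} → Bool) :
    LD K D (fun y => b (glue S x y)) := by
  refine Lk_comp (fun y => glue S x y) (fun v => ?_) hb
  by_cases h : v ∈ S
  · have e : (fun y => bk K (glue S x y v) : ({v // v ∉ S} → Bool) → K) =
        fun _ => bk K (x ⟨v, h⟩) := by
      funext y
      simp [glue, h]
    rw [e]
    exact Lk_const _ _
  · have e : (fun y => bk K (glue S x y v) : ({v // v ∉ S} → Bool) → K) =
        fun y => bk K (y ⟨v, h⟩) := by
      funext y
      simp [glue, h]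
    rw [e]
    exact Lk_var _

theorem ws_glue {q : ℕ} [Fact q.Prime] (α : V → ZMod q) (x : {v // v ∈ S} → Bool) (y : {v // v ∉ S} → Bool) :
    ws α (glue S x y) = ws (fun v : {v // v ∈ S} => α v) x +
      ws (fun v : {v // v ∉ S} => α v) y := by
  unfold ws
  rw [← Fintype.sum_subtype_add_sum_subtype (fun v => v ∈ S)
    (fun v => if glue S x y v = true then α v else 0)]
  congr 1
  · refine Finset.sum_congr (by ext; simp) fun v _ => ?_
    have : glue S x y v = x v := by simp [glue, v.2]
    rw [this]
  · refine Finset.sum_congr (by ext; simp) fun v _ => ?_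
    have : glue S x y v = y v := by simp [glue, v.2]
    rw [this]

theorem sum_glue (f : (V → Bool) → ℕ) :
    ∑ z, f z = ∑ x : {v // v ∈ S} → Bool, ∑ y : {v // v ∉ S} → Bool, f (glue S x y) := by
  rw [← Fintype.sum_prod_type']
  exact (Equiv.sum_comp (Equiv.piEquivPiSubtypeProd (fun v => v ∈ S) (fun _ => Bool)).symm f).symm

end Split

/-! ### counting tuples -/

section Tuples

variable {Y : Type} [Fintype Y] [DecidableEq Y]

theorem card_coord {m : ℕ} (i : Fin m) (A : Finset Y) :
    (Finset.univ.filter (fun zs : Fin m → Y => zs i ∈ A)).card * Fintype.card Y =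
      A.card * Fintype.card Y ^ m := by
  have e : Finset.univ.filter (fun zs : Fin m → Y => zs i ∈ A) =
      Fintype.piFinset (Function.update (fun _ => Finset.univ) i A) := by
    ext zs
    rw [Finset.mem_filter, Fintype.mem_piFinset]
    constructor
    · rintro ⟨-, h⟩ j
      by_cases hj : j = i
      · subst hj
        rw [Function.update_self]
        exact h
      · rw [Function.update_of_ne hj]
        exact Finset.mem_univ _
    · intro h
      have h1 := h i
      rw [Function.update_self] at h1
      exact ⟨Finset.mem_univ _, h1⟩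
  rw [e, Fintype.card_piFinset]
  have e2 : ∀ j, (Function.update (fun _ => (Finset.univ : Finset Y)) i A j).card =
      Function.update (fun _ => Fintype.card Y) i A.card j := by
    intro j
    by_cases hj : j = i
    · subst hj
      rw [Function.update_self, Function.update_self]
    · rw [Function.update_of_ne hj, Function.update_of_ne hj, Finset.card_univ]
  rw [Finset.prod_congr rfl fun j _ => e2 j, Finset.prod_update_of_mem (Finset.mem_univ i),
    Finset.prod_const, mul_assoc, ← pow_succ]
  congr 2
  rw [Finset.card_sdiff_of_subset (Finset.subset_univ _), Finset.card_univ, Fintype.card_fin,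
    Finset.card_singleton]
  have := i.pos
  omega

/-- tuples which are constant in the sense of `R` -/
theorem card_const_tuples {n : ℕ} (Q : Y → Prop) (R : Y → Y → Prop) (a b : ℕ)
    (hR : ∀ y, Q y → ∀ A : Finset Y, (∀ z ∈ A, R y z) → a * A.card ≤ b) (B : Finset (Fin (n + 1) → Y))
    (hB : ∀ zs ∈ B, Q (zs 0) ∧ ∀ i : Fin n, R (zs 0) (zs i.succ)) :
    a ^ n * B.card ≤ Fintype.card Y * b ^ n := by
  classical
  have h1 : B.card = ∑ y : Y, (B.filter (fun zs => zs 0 = y)).card :=
    Finset.card_eq_sum_card_fiberwise (fun _ _ => Finset.mem_univ _)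
  have h2 : ∀ y : Y, a ^ n * (B.filter (fun zs => zs 0 = y)).card ≤ b ^ n := by
    intro y
    by_cases hy : Q y
    · have h3 : (B.filter (fun zs => zs 0 = y)).card ≤
          (Fintype.piFinset (fun _ : Fin n => Finset.univ.filter (fun z => R y z))).card := by
        refine Finset.card_le_card_of_injOn (fun zs i => zs i.succ) ?_ ?_
        · intro zs hzs
          rw [Finset.mem_coe, Finset.mem_filter] at hzs
          rw [Finset.mem_coe, Fintype.mem_piFinset]
          intro i
          rw [Finset.mem_filter]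
          have h4 := (hB zs hzs.1).2 i
          rw [hzs.2] at h4
          exact ⟨Finset.mem_univ _, h4⟩
        · intro zs hzs zs' hzs' h
          rw [Finset.mem_coe, Finset.mem_filter] at hzs hzs'
          funext i
          refine Fin.cases ?_ (fun j => ?_) i
          · rw [hzs.2, hzs'.2]
          · exact congrFun h j
      rw [Fintype.card_piFinset, Finset.prod_const, Finset.card_univ, Fintype.card_fin] at h3
      calc a ^ n * (B.filter (fun zs => zs 0 = y)).card
          ≤ a ^ n * (Finset.univ.filter (fun z => R y z)).card ^ n := Nat.mul_le_mul_left _ h3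
        _ = (a * (Finset.univ.filter (fun z => R y z)).card) ^ n := (mul_pow _ _ _).symm
        _ ≤ b ^ n := Nat.pow_le_pow_left
            (hR y hy _ (fun z hz => (Finset.mem_filter.mp hz).2)) n
    · have h3 : B.filter (fun zs => zs 0 = y) = ∅ := by
        rw [Finset.filter_eq_empty_iff]
        intro zs hzs h
        exact hy (h ▸ (hB zs hzs).1)
      rw [h3, Finset.card_empty, mul_zero]
      exact Nat.zero_le _
  rw [h1, Finset.mul_sum]
  refine (Finset.sum_le_sum fun y _ => h2 y).trans ?_
  rw [Finset.sum_const, Finset.card_univ, smul_eq_mul]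

end Tuples

/-! ### the induction on the size of the lists -/

section Hard

/-- Lists of size at most `lam` given by Boolean functions of degree `D` do not contain the
weighted sum of the bits, on a set of density at least `1 / N` -/
def Hard (K : Type) [Field K] (q : ℕ) [Fact q.Prime] (lam N M : ℕ) : Prop :=
  ∀ (V : Type) [Fintype V] [DecidableEq V] (D : ℕ) (α : V → ZMod q)
    (T : ZMod q → (V → Bool) → Bool) (B : Finset (V → Bool)),
    M * (2 * D + 1) ^ 2 ≤ Fintype.card V → (∀ v, α v ≠ 0) → (∀ c, LD K D (T c)) →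
    (∀ x, x ∉ B → (lst T x).card ≤ lam ∧ ws α x ∈ lst T x) →
    2 ^ Fintype.card V ≤ N * B.card

variable {K : Type} [Field K] {q : ℕ} [Fact q.Prime]

theorem hard_zero : Hard K q 0 1 0 := by
  intro V _ _ D α T B _ _ _ h
  have h1 : B = Finset.univ := by
    rw [Finset.eq_univ_iff_forall]
    intro x
    by_contra hx
    obtain ⟨h2, h3⟩ := h x hx
    rw [Nat.le_zero, Finset.card_eq_zero] at h2
    rw [h2] at h3
    exact Finset.notMem_empty _ h3
  rw [h1, one_mul, Finset.card_univ, Fintype.card_fun, Fintype.card_bool]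

theorem exists_exp (N : ℕ) : ∃ n : ℕ, 2 * N * 9 ^ n ≤ 16 ^ n := by
  refine ⟨2 * (2 * N), ?_⟩
  rw [pow_mul 9 2 (2 * N), pow_mul 16 2 (2 * N)]
  have h1 : 2 * N ≤ 2 ^ (2 * N) := Nat.lt_two_pow_self.le
  calc 2 * N * (9 ^ 2) ^ (2 * N) ≤ 2 ^ (2 * N) * (9 ^ 2) ^ (2 * N) := Nat.mul_le_mul_right _ h1
    _ = (2 * 9 ^ 2) ^ (2 * N) := (mul_pow _ _ _).symm
    _ ≤ (16 ^ 2) ^ (2 * N) := Nat.pow_le_pow_left (by norm_num) _

theorem hard_succ (ψ : AddChar (ZMod q) K) (hψ : ψ.IsPrimitive) (hq : (q : K) ≠ 0) {lam N M : ℕ}
    (h : Hard K q lam N M) (hlam : lam + 1 < q) :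
    ∃ N' M', Hard K q (lam + 1) N' M' := by
  classical
  obtain ⟨n, hn⟩ := exists_exp N
  refine ⟨2 * N * (n + 1), 2 * (M * (n + 1) ^ 2 + 64), ?_⟩
  intro V _ _ D α T B hM hα hT hB
  -- the splitting
  obtain ⟨S, -, hS⟩ := Finset.exists_subset_card_eq (s := (Finset.univ : Finset V))
    (n := Fintype.card V / 2) (by rw [Finset.card_univ]; exact Nat.div_le_self _ _)
  have hc1 : Fintype.card {v // v ∈ S} = Fintype.card V / 2 := by
    rw [Fintype.card_coe, hS]
  have hc2 : Fintype.card {v // v ∈ S} + Fintype.card {v // v ∉ S} = Fintype.card V := by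
    rw [Fintype.card_coe, Fintype.card_subtype_compl, Fintype.card_coe]
    have : S.card ≤ Fintype.card V := Finset.card_le_univ S
    omega
  set X := ({v // v ∈ S} → Bool) with hX
  set Y := ({v // v ∉ S} → Bool) with hY
  have hcX : Fintype.card X = 2 ^ Fintype.card {v // v ∈ S} := by
    show Fintype.card ({v // v ∈ S} → Bool) = _
    rw [Fintype.card_fun, Fintype.card_bool]
  have hcY : Fintype.card Y = 2 ^ Fintype.card {v // v ∉ S} := by
    show Fintype.card ({v // v ∉ S} → Bool) = _
    rw [Fintype.card_fun, Fintype.card_bool]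
  set α1 : {v // v ∈ S} → ZMod q := fun v => α v with hα1
  set α2 : {v // v ∉ S} → ZMod q := fun v => α v with hα2
  -- the lists for a tuple
  let T' : (Fin (n + 1) → Y) → ZMod q → X → Bool := fun zs c x =>
    decide (∀ i : Fin (n + 1), T (c + ws α2 (zs i)) (glue S x (zs i)) = true)
  let E : X → Finset (Fin (n + 1) → Y) := fun x =>
    Finset.univ.filter (fun zs => ∃ i, glue S x (zs i) ∈ B)
  let U : X → Finset (Fin (n + 1) → Y) := fun x =>
    Finset.univ.filter (fun zs => (∀ i, glue S x (zs i) ∉ B) ∧ lam < (lst (T' zs) x).card)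
  -- the inductive hypothesis
  have k1 : ∀ zs : Fin (n + 1) → Y, Fintype.card X ≤
      N * (Finset.univ.filter (fun x : X => zs ∈ E x ∪ U x)).card := by
    intro zs
    rw [hcX]
    refine h {v // v ∈ S} ((n + 1) * D) α1 (T' zs) _ ?_ (fun v => hα v) (fun c => ?_) ?_
    · have h2 : (2 * ((n + 1) * D) + 1) ^ 2 ≤ (n + 1) ^ 2 * (2 * D + 1) ^ 2 := by
        rw [← mul_pow]
        refine Nat.pow_le_pow_left ?_ 2
        nlinarith
      have h3 : 2 * (M * (2 * ((n + 1) * D) + 1) ^ 2) ≤ Fintype.card V := by
        refine le_trans ?_ hM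
        calc 2 * (M * (2 * ((n + 1) * D) + 1) ^ 2)
            ≤ 2 * (M * ((n + 1) ^ 2 * (2 * D + 1) ^ 2)) :=
              Nat.mul_le_mul_left _ (Nat.mul_le_mul_left _ h2)
          _ ≤ 2 * (M * (n + 1) ^ 2 + 64) * (2 * D + 1) ^ 2 := by
              have : 2 * (M * (n + 1) ^ 2 + 64) * (2 * D + 1) ^ 2 =
                  2 * (M * ((n + 1) ^ 2 * (2 * D + 1) ^ 2)) + 128 * (2 * D + 1) ^ 2 := by ring
              rw [this]
              exact Nat.le_add_right _ _
      omega
    · exact LD_all (fun i x => T (c + ws α2 (zs i)) (glue S x (zs i)))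
        (fun i => LD_glue1 S (hT _) (zs i))
    · intro x hx
      rw [Finset.mem_filter, Finset.mem_union, not_and, not_or] at hx
      obtain ⟨h2, h3⟩ := hx (Finset.mem_univ _)
      have h4 : ∀ i, glue S x (zs i) ∉ B := by
        intro i hi
        exact h2 (Finset.mem_filter.mpr ⟨Finset.mem_univ _, i, hi⟩)
      refine ⟨?_, ?_⟩
      · by_contra h5
        exact h3 (Finset.mem_filter.mpr ⟨Finset.mem_univ _, h4, not_le.mp h5⟩)
      · rw [lst, Finset.mem_filter]
        refine ⟨Finset.mem_univ _, ?_⟩
        show decide _ = true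
        rw [decide_eq_true_eq]
        intro i
        have h5 := (hB _ (h4 i)).2
        rw [lst, Finset.mem_filter, ws_glue] at h5
        exact h5.2
  -- the number of bad tuples of the second kind
  have k2 : ∀ x : X, 2 * N * (U x).card ≤ Fintype.card Y ^ (n + 1) := by
    intro x
    let L : Y → Finset (ZMod q) := fun y =>
      Finset.univ.filter (fun c => T (c + ws α2 y) (glue S x y) = true)
    have hL : ∀ y : Y, glue S x y ∉ B → (L y).card ≤ lam + 1 := by
      intro y hy
      refine le_trans (le_of_eq ?_) (hB _ hy).1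
      refine Finset.card_bij (fun c _ => c + ws α2 y) ?_ ?_ ?_
      · intro c hc
        rw [lst, Finset.mem_filter]
        exact ⟨Finset.mem_univ _, (Finset.mem_filter.mp hc).2⟩
      · intro c _ c' _ hcc
        exact add_right_cancel hcc
      · intro c hc
        refine ⟨c - ws α2 y, ?_, sub_add_cancel _ _⟩
        rw [lst, Finset.mem_filter] at hc
        refine Finset.mem_filter.mpr ⟨Finset.mem_univ _, ?_⟩
        rw [sub_add_cancel]
        exact hc.2
    have h2 : 16 ^ n * (U x).card ≤ Fintype.card Y * (9 * Fintype.card Y) ^ n := by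
      refine card_const_tuples (fun y => (L y).card = lam + 1) (fun y z => L z = L y) 16
        (9 * Fintype.card Y) ?_ (U x) ?_
      · intro y hy A hA
        rw [hcY]
        have h3 := count_le (K := K) ψ hψ hq (D := D) (V := {v // v ∉ S}) (by
            have : 2 * (64 * (2 * D + 1) ^ 2) ≤ Fintype.card V := by
              refine le_trans ?_ hM
              have : 2 * (M * (n + 1) ^ 2 + 64) * (2 * D + 1) ^ 2 =
                  2 * (M * (n + 1) ^ 2) * (2 * D + 1) ^ 2 + 2 * (64 * (2 * D + 1) ^ 2) := by ring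
              rw [this]
              exact Nat.le_add_left _ _
            omega) α2 (fun v => hα v) (fun c y => T c (glue S x y))
            (fun c => LD_glue2 S (hT c) x) (L y) (Finset.card_pos.mp (by rw [hy]; omega))
            (by rw [hy]; exact hlam)
        refine le_trans (Nat.mul_le_mul_left _ (Finset.card_le_card ?_)) h3
        intro z hz
        refine Finset.mem_filter.mpr ⟨Finset.mem_univ _, fun c => ?_⟩
        rw [← hA z hz, Finset.mem_filter]
        exact ⟨fun h => ⟨Finset.mem_univ _, h⟩, fun h => h.2⟩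
      · intro zs hzs
        rw [Finset.mem_filter] at hzs
        obtain ⟨-, h3, h4⟩ := hzs
        have h5 : ∀ i, lst (T' zs) x ⊆ L (zs i) := by
          intro i c hc
          rw [lst, Finset.mem_filter] at hc
          have h6 : ∀ i : Fin (n + 1), T (c + ws α2 (zs i)) (glue S x (zs i)) = true :=
            of_decide_eq_true hc.2
          exact Finset.mem_filter.mpr ⟨Finset.mem_univ _, h6 i⟩
        have h6 : ∀ i, lst (T' zs) x = L (zs i) := by
          intro i
          exact Finset.eq_of_subset_of_card_le (h5 i) ((hL _ (h3 i)).trans h4)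
        refine ⟨?_, fun i => ?_⟩
        · have := hL _ (h3 0)
          rw [← h6 0] at this ⊢
          omega
        · rw [← h6 0, ← h6 i.succ]
    have h3 : 16 ^ n * (2 * N * (U x).card) ≤ 16 ^ n * Fintype.card Y ^ (n + 1) := by
      calc 16 ^ n * (2 * N * (U x).card) = 2 * N * (16 ^ n * (U x).card) := by ring
        _ ≤ 2 * N * (Fintype.card Y * (9 * Fintype.card Y) ^ n) := Nat.mul_le_mul_left _ h2
        _ = (2 * N * 9 ^ n) * Fintype.card Y ^ (n + 1) := by
            rw [mul_pow]
            ring
        _ ≤ 16 ^ n * Fintype.card Y ^ (n + 1) := Nat.mul_le_mul_right _ hn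
    exact Nat.le_of_mul_le_mul_left h3 (by positivity)
  -- the number of bad tuples of the first kind
  have k3 : (∑ x : X, (E x).card) * Fintype.card Y ≤
      (n + 1) * B.card * Fintype.card Y ^ (n + 1) := by
    have h2 : ∀ x : X, (E x).card * Fintype.card Y ≤
        (n + 1) * (Finset.univ.filter (fun y : Y => glue S x y ∈ B)).card *
          Fintype.card Y ^ (n + 1) := by
      intro x
      set A := Finset.univ.filter (fun y : Y => glue S x y ∈ B) with hA
      have h3 : E x ⊆ Finset.univ.biUnion (fun i : Fin (n + 1) =>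
          Finset.univ.filter (fun zs : Fin (n + 1) → Y => zs i ∈ A)) := by
        intro zs hzs
        obtain ⟨-, i, hi⟩ := Finset.mem_filter.mp hzs
        rw [Finset.mem_biUnion]
        refine ⟨i, Finset.mem_univ _, Finset.mem_filter.mpr ⟨Finset.mem_univ _, ?_⟩⟩
        exact Finset.mem_filter.mpr ⟨Finset.mem_univ _, hi⟩
      have h4 := (Finset.card_le_card h3).trans Finset.card_biUnion_le
      calc (E x).card * Fintype.card Y
          ≤ (∑ i : Fin (n + 1), (Finset.univ.filter
              (fun zs : Fin (n + 1) → Y => zs i ∈ A)).card) * Fintype.card Y :=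
            Nat.mul_le_mul_right _ h4
        _ = ∑ i : Fin (n + 1), A.card * Fintype.card Y ^ (n + 1) := by
            rw [Finset.sum_mul]
            exact Finset.sum_congr rfl fun i _ => card_coord i A
        _ = (n + 1) * A.card * Fintype.card Y ^ (n + 1) := by
            rw [Finset.sum_const, Finset.card_univ, Fintype.card_fin, smul_eq_mul, mul_assoc]
    have h3 : B.card = ∑ x : X, (Finset.univ.filter (fun y : Y => glue S x y ∈ B)).card := by
      have h4 := sum_glue S (fun z => if z ∈ B then 1 else 0)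
      rw [Finset.sum_boole, Finset.filter_mem_eq_inter, Finset.univ_inter, Nat.cast_id] at h4
      rw [h4]
      refine Finset.sum_congr rfl fun x _ => ?_
      rw [Finset.sum_boole, Nat.cast_id]
    rw [Finset.sum_mul]
    refine (Finset.sum_le_sum fun x _ => h2 x).trans (le_of_eq ?_)
    rw [← Finset.sum_mul, ← Finset.mul_sum, ← h3]
  -- double counting
  have k4 : Fintype.card Y ^ (n + 1) * Fintype.card X ≤
      N * ∑ x : X, ((E x).card + (U x).card) := by
    calc Fintype.card Y ^ (n + 1) * Fintype.card X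
        = ∑ _zs : Fin (n + 1) → Y, Fintype.card X := by
          rw [Finset.sum_const, Finset.card_univ, Fintype.card_pi_const, smul_eq_mul]
      _ ≤ ∑ zs : Fin (n + 1) → Y,
            N * (Finset.univ.filter (fun x : X => zs ∈ E x ∪ U x)).card :=
          Finset.sum_le_sum fun zs _ => k1 zs
      _ = N * ∑ x : X, (E x ∪ U x).card := by
          rw [← Finset.mul_sum]
          congr 1
          simp only [Finset.card_filter]
          rw [Finset.sum_comm]
          refine Finset.sum_congr rfl fun x _ => ?_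
          rw [Finset.sum_boole, Finset.filter_mem_eq_inter, Finset.univ_inter, Nat.cast_id]
      _ ≤ N * ∑ x : X, ((E x).card + (U x).card) :=
          Nat.mul_le_mul_left _ (Finset.sum_le_sum fun x _ => Finset.card_union_le _ _)
  have k5 : 2 * N * ∑ x : X, (U x).card ≤ Fintype.card X * Fintype.card Y ^ (n + 1) := by
    rw [Finset.mul_sum]
    refine (Finset.sum_le_sum fun x _ => k2 x).trans ?_
    rw [Finset.sum_const, Finset.card_univ, smul_eq_mul]
  rw [Finset.sum_add_distrib] at k4
  have k6 : Fintype.card X * Fintype.card Y ^ (n + 1) ≤ 2 * N * ∑ x : X, (E x).card := by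
    have : 2 * (Fintype.card Y ^ (n + 1) * Fintype.card X) ≤
        2 * N * ∑ x : X, (E x).card + Fintype.card X * Fintype.card Y ^ (n + 1) := by
      calc 2 * (Fintype.card Y ^ (n + 1) * Fintype.card X)
          ≤ 2 * (N * (∑ x : X, (E x).card + ∑ x : X, (U x).card)) := Nat.mul_le_mul_left _ k4
        _ = 2 * N * ∑ x : X, (E x).card + 2 * N * ∑ x : X, (U x).card := by ring
        _ ≤ _ := Nat.add_le_add_left k5 _
    rw [mul_comm (Fintype.card Y ^ (n + 1))] at this
    omega
  have k7 : Fintype.card Y ^ (n + 1) * (Fintype.card X * Fintype.card Y) ≤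
      Fintype.card Y ^ (n + 1) * (2 * N * (n + 1) * B.card) := by
    calc Fintype.card Y ^ (n + 1) * (Fintype.card X * Fintype.card Y)
        = Fintype.card X * Fintype.card Y ^ (n + 1) * Fintype.card Y := by ring
      _ ≤ 2 * N * (∑ x : X, (E x).card) * Fintype.card Y := Nat.mul_le_mul_right _ k6
      _ = 2 * N * ((∑ x : X, (E x).card) * Fintype.card Y) := by ring
      _ ≤ 2 * N * ((n + 1) * B.card * Fintype.card Y ^ (n + 1)) := Nat.mul_le_mul_left _ k3
      _ = Fintype.card Y ^ (n + 1) * (2 * N * (n + 1) * B.card) := by ring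
  have k8 := Nat.le_of_mul_le_mul_left k7 (by rw [hcY]; positivity)
  rwa [hcX, hcY, ← pow_add, hc2] at k8

theorem hard_all (ψ : AddChar (ZMod q) K) (hψ : ψ.IsPrimitive) (hq : (q : K) ≠ 0) (lam : ℕ)
    (hlam : lam < q) : ∃ N M, Hard K q lam N M := by
  induction lam with
  | zero => exact ⟨1, 0, hard_zero⟩
  | succ lam ih =>
    obtain ⟨N, M, h⟩ := ih (Nat.lt_of_succ_lt hlam)
    exact hard_succ ψ hψ hq h hlam

end Hard

end PAM
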