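import Pool.Agent.helper36.PAM.List

/-!
# Circuits with MOD gates do not find primes in arithmetic progressions
-/

namespace PAM

open Finset PAP

section

variable {V : Type} [Fintype V] [DecidableEq V] {K : Type} [Field K]

/-- a Boolean function of Boolean functions of low degree -/
theorem LD_fun {D m : ℕ} (b : Fin m → (V → Bool) → Bool) (hb : ∀ i, LD K D (b i))
    (f : (Fin m → Bool) → Bool) : LD K (m * D) (fun x => f (fun i => b i x)) := by
  classical
  unfold LD
  have e : (fun x => bk K (f (fun i => b i x)) : (V → Bool) → K) =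
      ∑ u : Fin m → Bool, bk K (f u) •
        (fun x => bk K (decide (∀ i, (!(xor (b i x) (u i))) = true))) := by
    funext x
    rw [Finset.sum_apply, Finset.sum_eq_single (fun i => b i x)]
    · rw [Pi.smul_apply, smul_eq_mul]
      have h : ∀ i, (!(xor (b i x) (b i x))) = true := fun i => by simp
      rw [decide_eq_true h]
      simp [bk]
    · intro u _ hu
      rw [Pi.smul_apply, smul_eq_mul]
      have h : ¬ ∀ i, (!(xor (b i x) (u i))) = true := by
        intro h
        apply hu
        funext i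
        have h1 := h i
        revert h1
        cases b i x <;> cases u i <;> simp
      rw [decide_eq_false h]
      simp [bk]
    · intro h
      exact absurd (Finset.mem_univ _) h
  rw [e]
  refine Submodule.sum_mem _ fun u _ => Submodule.smul_mem _ _ ?_
  exact LD_all (fun i x => !(xor (b i x) (u i))) (fun i => LD_not (LD_xor (hb i) (u i)))

end

theorem exists_char (r q : ℕ) [Fact r.Prime] [Fact q.Prime] (h : q ≠ r) :
    ∃ (K : Type) (_ : Field K) (_ : CharP K r) (ψ : AddChar (ZMod q) K),
      ψ.IsPrimitive ∧ (q : K) ≠ 0 := by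
  have hq : ((q : ℕ) : AlgebraicClosure (ZMod r)) ≠ 0 := by
    intro h0
    rw [CharP.cast_eq_zero_iff (AlgebraicClosure (ZMod r)) r] at h0
    exact h ((Nat.prime_dvd_prime_iff_eq (Fact.out : r.Prime) (Fact.out : q.Prime)).1 h0).symm
  have : NeZero ((q : ℕ) : AlgebraicClosure (ZMod r)) := ⟨hq⟩
  obtain ⟨ζ, hζ⟩ := HasEnoughRootsOfUnity.exists_primitiveRoot (AlgebraicClosure (ZMod r)) q
  exact ⟨AlgebraicClosure (ZMod r), inferInstance, inferInstance, _,
    AddChar.zmodChar_primitive_of_primitive_root q hζ, hq⟩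

/-- the number modulo `q` -/
theorem num_cast {q k : ℕ} [Fact q.Prime] (x : Fin k → Bool) (j : ℕ) :
    ((2 ^ j * num x : ℕ) : ZMod q) = ws (fun i : Fin k => (2 : ZMod q) ^ (j + (i : ℕ))) x := by
  unfold num ws
  push_cast
  rw [Finset.mul_sum]
  refine Finset.sum_congr rfl fun i _ => ?_
  split_ifs
  · rw [pow_add]
  · rw [mul_zero]

theorem num_inj {k : ℕ} : Function.Injective (num : (Fin k → Bool) → ℕ) := by
  have key : ∀ (k : ℕ) (b : Fin k → Bool), num b =
      ∑ i ∈ Finset.range k, (if (fun i => if h : i < k then b ⟨i, h⟩ else false) i = true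
        then 2 ^ i else 0) := by
    intro k b
    unfold num
    rw [← Fin.sum_univ_eq_sum_range (fun i => if (fun i => if h : i < k then b ⟨i, h⟩
      else false) i = true then 2 ^ i else 0) k]
    refine Finset.sum_congr rfl fun i _ => ?_
    simp
  have h2 : ∀ (k : ℕ) (f g : ℕ → Bool), ∑ i ∈ Finset.range k, (if f i = true then 2 ^ i else 0) =
      ∑ i ∈ Finset.range k, (if g i = true then 2 ^ i else 0) → ∀ i, i < k → f i = g i := by
    intro k
    induction k with
    | zero =>
      intro f g _ i hi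
      omega
    | succ k ih =>
      intro f g h i hi
      rw [Finset.sum_range_succ', Finset.sum_range_succ'] at h
      have e : ∀ f : ℕ → Bool, ∑ i ∈ Finset.range k, (if f (i + 1) = true then 2 ^ (i + 1) else 0) =
          2 * ∑ i ∈ Finset.range k, (if f (i + 1) = true then 2 ^ i else 0) := by
        intro f
        rw [Finset.mul_sum]
        refine Finset.sum_congr rfl fun i _ => ?_
        split_ifs
        · rw [pow_succ]
          ring
        · rfl
      rw [e f, e g] at h
      have hb : f 0 = g 0 := by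
        cases hf : f 0 <;> cases hg : g 0 <;> simp [hf, hg] at h ⊢ <;> omega
      have hs : ∑ i ∈ Finset.range k, (if f (i + 1) = true then 2 ^ i else 0) =
          ∑ i ∈ Finset.range k, (if g (i + 1) = true then 2 ^ i else 0) := by
        rw [hb] at h
        omega
      rcases Nat.eq_zero_or_pos i with hi0 | hi0
      · rw [hi0, hb]
      · have := ih (fun i => f (i + 1)) (fun i => g (i + 1)) hs (i - 1) (by omega)
        rwa [Nat.sub_add_cancel hi0] at this
  intro b b' hbb
  rw [key, key] at hbb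
  funext i
  have := h2 k _ _ hbb i i.isLt
  simpa using this

open Classical in
theorem card_small (k B : ℕ) :
    (Finset.univ.filter (fun x : Fin k ⊕ Fin k → Bool => aOf x ≤ B)).card ≤ (B + 1) * 2 ^ k := by
  have h : (Finset.univ.filter (fun x : Fin k ⊕ Fin k → Bool => aOf x ≤ B)).card ≤
      (Finset.range (B + 1) ×ˢ (Finset.univ : Finset (Fin k → Bool))).card := by
    refine Finset.card_le_card_of_injOn (fun x => (aOf x, fun i => x (Sum.inr i))) ?_ ?_
    · intro x hx
      rw [Finset.mem_coe, Finset.mem_filter] at hx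
      rw [Finset.mem_coe, Finset.mem_product, Finset.mem_range]
      exact ⟨Nat.lt_succ_of_le hx.2, Finset.mem_univ _⟩
    · intro x _ x' _ hxx
      simp only [Prod.mk.injEq] at hxx
      have h1 := num_inj hxx.1
      funext v
      rcases v with i | i
      · exact congrFun h1 i
      · exact congrFun hxx.2 i
  rw [Finset.card_product, Finset.card_range, Finset.card_univ, Fintype.card_fun,
    Fintype.card_bool, Fintype.card_fin] at h
  exact h

/-- the main theorem -/
theorem main (r q d : ℕ) (hr : r.Prime) (hq : q.Prime) (hqr : q ≠ r) (hq2 : q ≠ 2) :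
    ∃ K : ℕ, ∀ k w s m j u n : ℕ, s ≤ 2 ^ w → K * ((m + 1) * (w + K) ^ d) ^ 2 ≤ k → ¬ q ∣ n →
      ∀ C : MCircuit (Fin k) r d s m,
        2 ^ k ≤ K * (Finset.univ.filter (fun y : Fin k → Bool =>
          ¬ (u + 2 ^ j * num y + n * num (C.bit y)).Prime)).card := by
  classical
  have : Fact r.Prime := ⟨hr⟩
  have : Fact q.Prime := ⟨hq⟩
  obtain ⟨F, hF, hchar, ψ, hψ, hqF⟩ := exists_char r q hqr
  obtain ⟨N, M, hard⟩ := hard_all (K := F) ψ hψ hqF (q - 1) (Nat.sub_lt hq.pos (by norm_num))
  -- the constant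
  set t₀ := 4 * N * d + 1 with ht₀
  set K := t₀ + 4 * M * (r - 1) ^ (2 * d) + 4 * N * (q + 1) + 2 * N + 1 with hK
  refine ⟨K, ?_⟩
  intro k w s m j u n hs hk hn C
  have hw1 : 1 ≤ w + t₀ := by omega
  obtain ⟨a, B1, h1, h2, h3⟩ := bits_approx (K := F) C (w + t₀) hw1
  have hk1 : 1 ≤ ((m + 1) * (w + K) ^ d) ^ 2 :=
    Nat.one_le_pow _ _ (Nat.mul_pos (Nat.succ_pos _) (Nat.pow_pos (by omega)))
  have hkK : K ≤ k := le_trans (Nat.le_mul_of_pos_right _ hk1) hk
  -- the lists
  let T : ZMod q → (Fin k → Bool) → Bool := fun c x =>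
    (fun b : Fin m → Bool => decide ((u : ZMod q) + c + (n : ZMod q) * (num b : ZMod q) ≠ 0))
      (fun i => a i x)
  set bad : Finset (Fin k → Bool) := Finset.univ.filter (fun y : Fin k → Bool =>
          ¬ (u + 2 ^ j * num y + n * num (C.bit y)).Prime) with hbad
  set B3 : Finset (Fin k → Bool) := Finset.univ.filter (fun y : Fin k → Bool =>
          u + 2 ^ j * num y + n * num (C.bit y) = q) with hB3
  have hq2' : (2 : ZMod q) ≠ 0 := by
    intro h0
    have h4 : ((2 : ℕ) : ZMod q) = 0 := by exact_mod_cast h0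
    rw [ZMod.natCast_eq_zero_iff] at h4
    exact hq2 ((Nat.prime_dvd_prime_iff_eq hq Nat.prime_two).1 h4)
  have key := hard (Fin k) (m * ((w + t₀) * (r - 1)) ^ d)
    (fun i : Fin k => (2 : ZMod q) ^ (j + (i : ℕ))) T (B1 ∪ bad ∪ B3) ?_
    (fun i => pow_ne_zero _ hq2') (fun c => LD_fun a h1 (fun b : Fin m → Bool =>
      decide ((u : ZMod q) + c + (n : ZMod q) * (num b : ZMod q) ≠ 0))) ?_
  rotate_left
  · -- the degree
    rw [Fintype.card_fin]
    have hr1 : 1 ≤ r - 1 := by have := hr.two_le; omega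
    set Z := (w + t₀) ^ d * (r - 1) ^ d with hZ
    have hZ1 : 1 ≤ Z := Nat.mul_pos (Nat.pow_pos (by omega)) (Nat.pow_pos (by omega))
    have e1 : ((w + t₀) * (r - 1)) ^ d = Z := mul_pow _ _ _
    rw [e1]
    have e2 : 2 * (m * Z) + 1 ≤ 2 * ((m + 1) * Z) := by nlinarith
    calc M * (2 * (m * Z) + 1) ^ 2 ≤ M * (2 * ((m + 1) * Z)) ^ 2 :=
          Nat.mul_le_mul_left _ (Nat.pow_le_pow_left e2 2)
      _ = 4 * M * (r - 1) ^ (2 * d) * ((m + 1) * (w + t₀) ^ d) ^ 2 := by
          rw [hZ, mul_comm 2 d, pow_mul]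
          ring
      _ ≤ K * ((m + 1) * (w + K) ^ d) ^ 2 := by
          refine Nat.mul_le_mul (by omega) (Nat.pow_le_pow_left (Nat.mul_le_mul_left _
            (Nat.pow_le_pow_left (by omega) d)) 2)
      _ ≤ k := hk
  · -- the lists contain the residue
    intro x hx
    rw [Finset.mem_union, Finset.mem_union, not_or, not_or] at hx
    obtain ⟨⟨hx1, hx2⟩, hx3⟩ := hx
    have hbits : (fun i => a i x) = C.bit x := funext fun i => h3 x hx1 i
    have hprime : (u + 2 ^ j * num x + n * num (C.bit x)).Prime := by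
      by_contra hcon
      exact hx2 (Finset.mem_filter.mpr ⟨Finset.mem_univ _, hcon⟩)
    have hne : u + 2 ^ j * num x + n * num (C.bit x) ≠ q := by
      intro hcon
      exact hx3 (Finset.mem_filter.mpr ⟨Finset.mem_univ _, hcon⟩)
    refine ⟨?_, ?_⟩
    · have h4 : lst T x ⊆ Finset.univ.erase (-(u : ZMod q) - (n : ZMod q) *
          (num (fun i => a i x) : ZMod q)) := by
        intro c hc
        rw [lst, Finset.mem_filter] at hc
        have h5 : (u : ZMod q) + c + (n : ZMod q) * (num (fun i => a i x) : ZMod q) ≠ 0 :=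
          of_decide_eq_true hc.2
        refine Finset.mem_erase.mpr ⟨?_, Finset.mem_univ _⟩
        rintro rfl
        apply h5
        ring
      refine (Finset.card_le_card h4).trans ?_
      rw [Finset.card_erase_of_mem (Finset.mem_univ _), Finset.card_univ, ZMod.card]
    · rw [lst, Finset.mem_filter]
      refine ⟨Finset.mem_univ _, ?_⟩
      show decide ((u : ZMod q) + ws (fun i : Fin k => (2 : ZMod q) ^ (j + (i : ℕ))) x +
        (n : ZMod q) * (num (fun i => a i x) : ZMod q) ≠ 0) = true
      rw [decide_eq_true_eq, hbits, ← num_cast]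
      intro h0
      have h5 : ((u + 2 ^ j * num x + n * num (C.bit x) : ℕ) : ZMod q) = 0 := by
        push_cast
        push_cast at h0
        exact h0
      rw [ZMod.natCast_eq_zero_iff] at h5
      exact hne ((Nat.prime_dvd_prime_iff_eq hq hprime).1 h5).symm
  -- the counting
  rw [Fintype.card_fin] at key h2
  have hB3c : B3.card ≤ q + 1 := by
    have h4 : B3.card ≤ (Finset.range (q + 1)).card := by
      refine Finset.card_le_card_of_injOn num ?_ (fun x _ y _ h => num_inj h)
      intro x hx
      rw [Finset.mem_coe, hB3, Finset.mem_filter] at hx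
      rw [Finset.mem_coe, Finset.mem_range]
      have h5 : num x ≤ 2 ^ j * num x := Nat.le_mul_of_pos_left _ (by positivity)
      have := hx.2
      omega
    rwa [Finset.card_range] at h4
  have hB1c : 4 * N * B1.card ≤ 2 ^ k := by
    have h4 : 2 ^ (w + t₀) * (4 * N * B1.card) ≤ 2 ^ (w + t₀) * 2 ^ k := by
      calc 2 ^ (w + t₀) * (4 * N * B1.card) = 4 * N * (2 ^ (w + t₀) * B1.card) := by ring
        _ ≤ 4 * N * (d * s * 2 ^ k) := Nat.mul_le_mul_left _ h2
        _ ≤ 4 * N * (d * 2 ^ w * 2 ^ k) := by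
            gcongr
        _ = (4 * N * d) * (2 ^ w * 2 ^ k) := by ring
        _ ≤ 2 ^ t₀ * (2 ^ w * 2 ^ k) := by
            refine Nat.mul_le_mul_right _ ?_
            have : t₀ < 2 ^ t₀ := Nat.lt_two_pow_self
            omega
        _ = 2 ^ (w + t₀) * 2 ^ k := by rw [pow_add]; ring
    exact Nat.le_of_mul_le_mul_left h4 (by positivity)
  have hk2 : k < 2 ^ k := Nat.lt_two_pow_self
  have hcard : (B1 ∪ bad ∪ B3).card ≤ B1.card + bad.card + (q + 1) := by
    refine (Finset.card_union_le _ _).trans (Nat.add_le_add (Finset.card_union_le _ _) hB3c)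
  have h5 : 2 ^ k ≤ N * (B1.card + bad.card + (q + 1)) := key.trans (Nat.mul_le_mul_left _ hcard)
  have h6 : 4 * N * (q + 1) ≤ 2 ^ k := by omega
  have h7 : 2 ^ k ≤ 2 * N * bad.card := by
    have h8 : 4 * 2 ^ k ≤ 4 * N * B1.card + 4 * N * bad.card + 4 * N * (q + 1) := by
      calc 4 * 2 ^ k ≤ 4 * (N * (B1.card + bad.card + (q + 1))) := Nat.mul_le_mul_left _ h5
        _ = _ := by ring
    have h9 : 4 * N * bad.card = 2 * (2 * N * bad.card) := by ring
    omega
  refine h7.trans (Nat.mul_le_mul_right _ ?_)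
  omega

end PAM
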