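import Pool.Agent.helper36.PAM.Key

/-!
# The success probability of circuits with MOD gates tends to zero
-/

namespace PAM

open Finset PAP

theorem exists_char' (r q : ℕ) [Fact r.Prime] [Fact q.Prime] (h : q ≠ r) :
    ∃ ψ : AddChar (ZMod q) (AlgebraicClosure (ZMod r)), ψ.IsPrimitive := by
  have hq : ((q : ℕ) : AlgebraicClosure (ZMod r)) ≠ 0 := by
    intro h0
    rw [CharP.cast_eq_zero_iff (AlgebraicClosure (ZMod r)) r] at h0
    exact h ((Nat.prime_dvd_prime_iff_eq (Fact.out : r.Prime) (Fact.out : q.Prime)).1 h0).symm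
  have : NeZero ((q : ℕ) : AlgebraicClosure (ZMod r)) := ⟨hq⟩
  obtain ⟨ζ, hζ⟩ := HasEnoughRootsOfUnity.exists_primitiveRoot (AlgebraicClosure (ZMod r)) q
  exact ⟨_, AddChar.zmodChar_primitive_of_primitive_root q hζ⟩

/-- finitely many odd primes different from `r` with a small density of units -/
theorem exists_primes (r : ℕ) (hr : r.Prime) (ε : ℝ) (hε : 0 < ε) :
    ∃ Q : Finset ℕ, (∀ q ∈ Q, q.Prime ∧ q ≠ 2 ∧ q ≠ r) ∧ ∏ q ∈ Q, (1 - 1 / (q : ℝ)) ≤ ε := by
  obtain ⟨Q0, hQ0, hd⟩ := exists_Q (ε / 2) (by positivity)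
  refine ⟨Q0.erase r, fun q hq => ?_, ?_⟩
  · have h1 := Finset.mem_erase.mp hq
    exact ⟨(hQ0 q h1.2).1, (hQ0 q h1.2).2, h1.1⟩
  have hpos : ∀ q ∈ Q0.erase r, 0 ≤ 1 - 1 / (q : ℝ) := by
    intro q hq
    have h2 : (2 : ℝ) ≤ q := by
      exact_mod_cast (hQ0 q (Finset.mem_erase.mp hq).2).1.two_le
    have h3 : 1 / (q : ℝ) ≤ 1 := by
      rw [div_le_one (by linarith)]
      linarith
    linarith
  have h1 : ∏ q ∈ Q0.erase r, (1 - 1 / (q : ℝ)) ≤ PAP.dens (Q0.erase r) := by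
    unfold PAP.dens
    refine Finset.prod_le_prod hpos fun q _ => ?_
    have : 0 ≤ 1 / (q : ℝ) ^ 2 := by positivity
    linarith
  have h2 : PAP.dens (Q0.erase r) ≤ 2 * PAP.dens Q0 := by
    have h0 : 0 ≤ PAP.dens (Q0.erase r) := by
      unfold PAP.dens
      refine Finset.prod_nonneg fun q hq => ?_
      have := hpos q hq
      have : 0 ≤ 1 / (q : ℝ) ^ 2 := by positivity
      linarith
    by_cases hrQ : r ∈ Q0
    · have h3 : PAP.dens Q0 = PAP.dens (Q0.erase r) * (1 - 1 / (r : ℝ) + 1 / (r : ℝ) ^ 2) := by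
        unfold PAP.dens
        rw [Finset.prod_erase_mul _ _ hrQ]
      have h4 : (1 : ℝ) / 2 ≤ 1 - 1 / (r : ℝ) + 1 / (r : ℝ) ^ 2 := by
        have h5 : (2 : ℝ) ≤ r := by exact_mod_cast hr.two_le
        have h6 : 1 / (r : ℝ) ≤ 1 / 2 := one_div_le_one_div_of_le (by norm_num) h5
        have : 0 ≤ 1 / (r : ℝ) ^ 2 := by positivity
        linarith
      rw [h3]
      nlinarith
    · rw [Finset.erase_eq_of_notMem hrQ] at h0 ⊢
      linarith
  linarith

section

variable (Q : Finset ℕ) [hF : ∀ i : {q // q ∈ Q}, Fact (Nat.Prime (i : ℕ))]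

theorem card_units_rq :
    ((Finset.univ.filter (fun γ : RQ Q => ∀ i, γ i ≠ 0)).card : ℝ) =
      (∏ q ∈ Q, (1 - 1 / (q : ℝ))) * Fintype.card (RQ Q) := by
  classical
  have e : Finset.univ.filter (fun γ : RQ Q => ∀ i, γ i ≠ 0) =
      Fintype.piFinset (fun i : {q // q ∈ Q} => (Finset.univ : Finset (ZMod (i : ℕ))).erase 0) := by
    ext γ
    rw [Finset.mem_filter, Fintype.mem_piFinset]
    constructor
    · rintro ⟨-, h⟩ i
      exact Finset.mem_erase.mpr ⟨h i, Finset.mem_univ _⟩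
    · intro h
      exact ⟨Finset.mem_univ _, fun i => (Finset.mem_erase.mp (h i)).1⟩
  have e2 : Fintype.card (RQ Q) = ∏ i : {q // q ∈ Q}, (i : ℕ) := by
    show Fintype.card ((i : {q // q ∈ Q}) → ZMod (i : ℕ)) = _
    rw [Fintype.card_pi]
    exact Finset.prod_congr rfl fun i _ => ZMod.card _
  rw [e, Fintype.card_piFinset, e2, ← Finset.prod_coe_sort Q (fun q => (1 - 1 / (q : ℝ)))]
  push_cast
  rw [← Finset.prod_mul_distrib]
  refine Finset.prod_congr rfl fun i _ => ?_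
  rw [Finset.card_erase_of_mem (Finset.mem_univ _), Finset.card_univ, ZMod.card]
  have h1 : 1 ≤ (i : ℕ) := (hF i).out.one_lt.le
  have h2 : (i : ℝ) ≠ 0 := by
    have := (hF i).out.ne_zero
    exact_mod_cast this
  rw [Nat.cast_sub h1]
  push_cast
  field_simp

open Classical in
theorem count_units {k : ℕ} (F : (Fin k → Bool) → RQ Q) (η : ℝ)
    (hμ : ∀ (i : {q // q ∈ Q}) (b : ZMod (i : ℕ)) (γ : RQ Q),
      |mu Q F (γ + Pi.single i b) - mu Q F γ| ≤ η) (hη : 0 ≤ η) :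
    ((Finset.univ.filter (fun z : Fin k → Bool =>
      ∀ i, (((num z : ℕ) : RQ Q) + F z) i ≠ 0)).card : ℝ) ≤
      (∏ q ∈ Q, (1 - 1 / (q : ℝ)) +
        Fintype.card (RQ Q) * (Fintype.card {q // q ∈ Q} * η)) * 2 ^ k := by
  set U := Finset.univ.filter (fun γ : RQ Q => ∀ i, γ i ≠ 0) with hU
  have h1 : (Finset.univ.filter (fun z : Fin k → Bool =>
      ∀ i, (((num z : ℕ) : RQ Q) + F z) i ≠ 0)).card =
      ∑ γ ∈ U, (Finset.univ.filter (fun z : Fin k → Bool =>
        ((num z : ℕ) : RQ Q) + F z = γ)).card := by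
    rw [Finset.card_eq_sum_card_fiberwise (f := fun z => ((num z : ℕ) : RQ Q) + F z) (t := U)]
    · refine Finset.sum_congr rfl fun γ hγ => ?_
      congr 1
      ext z
      rw [Finset.mem_filter, Finset.mem_filter, Finset.mem_filter]
      constructor
      · rintro ⟨⟨-, -⟩, h⟩
        exact ⟨Finset.mem_univ _, h⟩
      · rintro ⟨-, h⟩
        refine ⟨⟨Finset.mem_univ _, ?_⟩, h⟩
        rw [h]
        exact (Finset.mem_filter.mp hγ).2
    · intro z hz
      rw [Finset.mem_coe, Finset.mem_filter] at hz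
      rw [Finset.mem_coe, hU, Finset.mem_filter]
      exact ⟨Finset.mem_univ _, hz.2⟩
  have h2 : ∀ γ, ((Finset.univ.filter (fun z : Fin k → Bool =>
        ((num z : ℕ) : RQ Q) + F z = γ)).card : ℝ) = mu Q F γ * 2 ^ k := by
    intro γ
    unfold mu
    rw [div_mul_cancel₀ _ (by positivity)]
  rw [h1]
  push_cast
  rw [Finset.sum_congr rfl fun γ _ => h2 γ, ← Finset.sum_mul]
  refine mul_le_mul_of_nonneg_right ?_ (by positivity)
  have h3 := fun γ => le_uniform Q (mu Q F) η hμ (sum_mu Q F) γ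
  have hc0 : (0 : ℝ) < Fintype.card (RQ Q) := by exact_mod_cast Fintype.card_pos
  calc ∑ γ ∈ U, mu Q F γ ≤ ∑ _γ ∈ U, (1 / (Fintype.card (RQ Q) : ℝ) +
        Fintype.card {q // q ∈ Q} * η) := Finset.sum_le_sum fun γ _ => h3 γ
    _ = (U.card : ℝ) * (1 / Fintype.card (RQ Q)) + U.card * (Fintype.card {q // q ∈ Q} * η) := by
        rw [Finset.sum_const, nsmul_eq_mul, mul_add]
    _ ≤ ∏ q ∈ Q, (1 - 1 / (q : ℝ)) + Fintype.card (RQ Q) * (Fintype.card {q // q ∈ Q} * η) := by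
        refine add_le_add (le_of_eq ?_) ?_
        · rw [hU, card_units_rq]
          field_simp
        · refine mul_le_mul_of_nonneg_right ?_ (by positivity)
          exact_mod_cast Finset.card_le_univ _

end

/-- restriction of the last variables -/
theorem LD_elim {W : Type} [Fintype W] [DecidableEq W] {k D : ℕ} {K : Type} [Field K]
    {b : (Fin k ⊕ W → Bool) → Bool} (hb : LD K D b) (ω : W → Bool) :
    LD K D (fun y : Fin k → Bool => b (Sum.elim y ω)) := by
  refine Lk_comp (fun y : Fin k → Bool => Sum.elim y ω) (fun v => ?_) hb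
  rcases v with v | w
  · exact Lk_var (V := Fin k) (K := K) v
  · exact Lk_const (V := Fin k) (K := K) 1 (bk K (ω w))

theorem sum_elim {W : Type} [Fintype W] [DecidableEq W] {k : ℕ} (f : (Fin k ⊕ W → Bool) → ℕ) :
    ∑ z, f z = ∑ ω : W → Bool, ∑ y : Fin k → Bool, f (Sum.elim y ω) := by
  rw [Finset.sum_comm, ← Fintype.sum_prod_type']
  exact (Equiv.sum_comp (Equiv.sumArrowEquivProdArrow (Fin k) W Bool).symm f).symm

open Classical in
/-- the main theorem -/
theorem main_small (r d : ℕ) (hr : r.Prime) (ε : ℝ) (hε : 0 < ε) :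
    ∃ K : ℕ, ∀ k t s m : ℕ, K ≤ t → k ≤ 2 ^ t → s ≤ 2 ^ t →
      K * (m + 1) ^ 2 * t ^ (2 * d + 1) ≤ k →
      ∀ (W : Type) [Fintype W] (C : MCircuit (Fin k ⊕ W) r d s m) (n j u : (W → Bool) → ℕ),
        ((Finset.univ.filter (fun p : (Fin k → Bool) × (W → Bool) =>
          (u p.2 + 2 ^ j p.2 * num p.1 +
            n p.2 * num (C.bit (Sum.elim p.1 p.2))).Prime)).card : ℝ) ≤
          ε * (2 ^ k * 2 ^ Fintype.card W) := by
  have : Fact r.Prime := ⟨hr⟩
  obtain ⟨Q, hQ, hprod⟩ := exists_primes r hr (ε / 4) (by positivity)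
  have hF : ∀ i : {q // q ∈ Q}, Fact (Nat.Prime (i : ℕ)) := fun i => ⟨(hQ i.1 i.2).1⟩
  set c0 : ℝ := (Fintype.card (RQ Q) : ℝ) with hc0
  have hc0p : 0 < c0 := by
    rw [hc0]
    exact_mod_cast Fintype.card_pos
  set q0 : ℝ := (Fintype.card {q // q ∈ Q} : ℝ) with hq0
  have hq0p : 0 ≤ q0 := by positivity
  set η : ℝ := ε / (4 * c0 * (q0 + 1)) with hη
  have hη0 : 0 < η := by positivity
  obtain ⟨N, hN⟩ := exists_nat_ge (64 * c0 ^ 3 / η ^ 2)
  have hN' : 64 * c0 ^ 3 ≤ N * η ^ 2 := (div_le_iff₀ (by positivity)).1 hN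
  obtain ⟨t0, ht0⟩ := exists_nat_ge (4 * d / ε)
  obtain ⟨b0, hb0⟩ := exists_nat_ge (4 * c0 / η)
  obtain ⟨k0, hk0⟩ := exists_nat_ge (4 * ((∑ q ∈ Q, q : ℕ) + 1) / ε)
  set K : ℕ := t0 + (b0 + 1) + k0 + 512 * (N + 1) ^ 2 * 4 ^ d * (r - 1) ^ (2 * d) with hK
  refine ⟨K, ?_⟩
  intro k t s m hKt hkt hs hk W _ C n j u
  have hr1 : 1 ≤ r - 1 := by have := hr.two_le; omega
  have ht1 : 1 ≤ t := by omega
  have hkK : K ≤ k := by
    refine le_trans ?_ hk
    rw [mul_assoc]
    exact Nat.le_mul_of_pos_right _ (Nat.mul_pos (Nat.pow_pos (Nat.succ_pos _)) (Nat.pow_pos ht1))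
  obtain ⟨a, B1, h1, h2, h3⟩ := bits_approx (K := AlgebraicClosure (ZMod r)) C (t + t0) (by omega)
  set D : ℕ := m * ((t + t0) * (r - 1)) ^ d with hD
  set M : ℕ := 64 * (2 * (N * D) + 1) ^ 2 with hM
  set B : ℕ := t + b0 + 1 with hB
  have hMB : M * B ≤ k := by
    refine le_trans ?_ hk
    have e1 : ((t + t0) * (r - 1)) ^ d ≤ (2 * t) ^ d * (r - 1) ^ d := by
      rw [← mul_pow]
      refine Nat.pow_le_pow_left (Nat.mul_le_mul_right _ ?_) d
      omega
    set Z := (2 * t) ^ d * (r - 1) ^ d with hZ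
    have hZ1 : 1 ≤ Z := Nat.mul_pos (Nat.pow_pos (by omega)) (Nat.pow_pos hr1)
    have e2 : D ≤ m * Z := Nat.mul_le_mul_left _ e1
    have e3 : 2 * (N * D) + 1 ≤ 2 * ((N + 1) * ((m + 1) * Z)) := by
      have e4 : N * D ≤ N * (m * Z) := Nat.mul_le_mul_left _ e2
      have e5 : (N + 1) * ((m + 1) * Z) = N * (m * Z) + N * Z + m * Z + Z := by ring
      rw [e5]
      have : 0 ≤ N * Z := Nat.zero_le _
      omega
    have e4 : B ≤ 2 * t := by omega
    calc M * B ≤ 64 * (2 * ((N + 1) * ((m + 1) * Z))) ^ 2 * (2 * t) :=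
          Nat.mul_le_mul (Nat.mul_le_mul_left _ (Nat.pow_le_pow_left e3 2)) e4
      _ = 512 * (N + 1) ^ 2 * 4 ^ d * (r - 1) ^ (2 * d) * (m + 1) ^ 2 * t ^ (2 * d + 1) := by
          rw [hZ, pow_succ t (2 * d), mul_pow 2 t d, pow_mul (r - 1) 2 d, pow_mul t 2 d]
          have : (4 : ℕ) ^ d = (2 ^ d) ^ 2 := by
            rw [← pow_mul, mul_comm, pow_mul]
            norm_num
          rw [this]
          have e6 : ((r - 1) ^ 2) ^ d = ((r - 1) ^ d) ^ 2 := by
            rw [← pow_mul, ← pow_mul, mul_comm]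
          have e7 : (t ^ 2) ^ d = (t ^ d) ^ 2 := by
            rw [← pow_mul, ← pow_mul, mul_comm]
          rw [e6, e7]
          ring
      _ ≤ K * (m + 1) ^ 2 * t ^ (2 * d + 1) := by
          refine Nat.mul_le_mul_right _ (Nat.mul_le_mul_right _ ?_)
          omega
  have hMk : M ≤ k := le_trans (Nat.le_mul_of_pos_right _ (by omega)) hMB
  have hBM : 4 * c0 * (M : ℝ) ≤ η * 2 ^ B := by
    have e1 : (M : ℝ) ≤ 2 ^ t := by exact_mod_cast hMk.trans hkt
    have e2 : 4 * c0 ≤ η * 2 ^ b0 := by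
      have e3 : (b0 : ℝ) ≤ 2 ^ b0 := by exact_mod_cast (Nat.lt_two_pow_self (n := b0)).le
      have e4 : 4 * c0 ≤ b0 * η := (div_le_iff₀ hη0).1 hb0
      calc 4 * c0 ≤ b0 * η := e4
        _ ≤ 2 ^ b0 * η := mul_le_mul_of_nonneg_right e3 hη0.le
        _ = _ := by ring
    calc 4 * c0 * (M : ℝ) ≤ (η * 2 ^ b0) * 2 ^ t :=
          mul_le_mul e2 e1 (by positivity) (by positivity)
      _ ≤ η * 2 ^ B := by
          rw [hB, pow_succ, pow_add]
          have : 0 ≤ η * (2 ^ t * 2 ^ b0) := by positivity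
          nlinarith
  -- the exceptional inputs
  set E : Finset (Fin k → Bool) := Finset.univ.filter (fun y => num y ≤ ∑ q ∈ Q, q) with hE
  have hEc : E.card ≤ ∑ q ∈ Q, q + 1 := by
    have h4 : E.card ≤ (Finset.range (∑ q ∈ Q, q + 1)).card := by
      refine Finset.card_le_card_of_injOn num ?_ (fun x _ y _ h => num_inj h)
      intro x hx
      rw [Finset.mem_coe, hE, Finset.mem_filter] at hx
      rw [Finset.mem_coe, Finset.mem_range]
      exact Nat.lt_succ_of_le hx.2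
    rwa [Finset.card_range] at h4
  have p3 : (E.card : ℝ) ≤ ε / 4 * 2 ^ k := by
    have h4 : (E.card : ℝ) ≤ ((∑ q ∈ Q, q : ℕ) : ℝ) + 1 := by exact_mod_cast hEc
    have h5 : 4 * (((∑ q ∈ Q, q : ℕ) : ℝ) + 1) ≤ k0 * ε := (div_le_iff₀ hε).1 hk0
    have h6 : (k0 : ℝ) ≤ 2 ^ k := by
      have : k0 ≤ 2 ^ k := le_trans (by omega) (Nat.lt_two_pow_self (n := k)).le
      exact_mod_cast this
    have h7 : (k0 : ℝ) * ε ≤ 2 ^ k * ε := mul_le_mul_of_nonneg_right h6 hε.le
    linarith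
  have p1 : (B1.card : ℝ) ≤ ε / 4 * (2 ^ k * 2 ^ Fintype.card W) := by
    rw [Fintype.card_sum, Fintype.card_fin] at h2
    have h4 : (2 : ℝ) ^ (t + t0) * (B1.card : ℝ) ≤ d * s * 2 ^ (k + Fintype.card W) := by
      exact_mod_cast h2
    rw [pow_add 2 k] at h4
    have h5 : (s : ℝ) ≤ 2 ^ t := by exact_mod_cast hs
    have h6 : 4 * (d : ℝ) ≤ ε * 2 ^ t0 := by
      have e3 : (t0 : ℝ) ≤ 2 ^ t0 := by exact_mod_cast (Nat.lt_two_pow_self (n := t0)).le
      have e4 : 4 * (d : ℝ) ≤ t0 * ε := (div_le_iff₀ hε).1 ht0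
      calc 4 * (d : ℝ) ≤ t0 * ε := e4
        _ ≤ 2 ^ t0 * ε := mul_le_mul_of_nonneg_right e3 hε.le
        _ = _ := by ring
    have h7 : (2 : ℝ) ^ (t + t0) * (B1.card : ℝ) ≤
        2 ^ (t + t0) * (ε / 4 * (2 ^ k * 2 ^ Fintype.card W)) := by
      calc (2 : ℝ) ^ (t + t0) * (B1.card : ℝ) ≤ d * s * (2 ^ k * 2 ^ Fintype.card W) := h4
        _ ≤ d * 2 ^ t * (2 ^ k * 2 ^ Fintype.card W) := by gcongr
        _ ≤ (ε * 2 ^ t0 / 4) * 2 ^ t * (2 ^ k * 2 ^ Fintype.card W) := by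
            gcongr
            linarith
        _ = 2 ^ (t + t0) * (ε / 4 * (2 ^ k * 2 ^ Fintype.card W)) := by
            rw [pow_add]
            ring
    exact le_of_mul_le_mul_left h7 (by positivity)
  -- one value of the further variables
  have hone : ∀ ω : W → Bool, ((Finset.univ.filter (fun y : Fin k → Bool =>
      Sum.elim y ω ∉ B1 ∧
      (u ω + 2 ^ j ω * num y + n ω * num (C.bit (Sum.elim y ω))).Prime)).card : ℝ) ≤
      ε * (3 / 4) * 2 ^ k := by
    intro ω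
    -- the function of low degree
    let F : (Fin k → Bool) → RQ Q := fun z =>
      (fun b : Fin m → Bool =>
        ((2 : RQ Q)⁻¹) ^ (j ω) * ((u ω : RQ Q) + (n ω : RQ Q) * ((num b : ℕ) : RQ Q)))
        (fun i => a i (Sum.elim z ω))
    have hLD : ∀ γ, LD (AlgebraicClosure (ZMod r)) D (fun z => decide (F z = γ)) := fun γ =>
      LD_fun (fun i z => a i (Sum.elim z ω)) (fun i => LD_elim (h1 i) ω) (fun b : Fin m → Bool =>
        decide (((2 : RQ Q)⁻¹) ^ (j ω) *
          ((u ω : RQ Q) + (n ω : RQ Q) * ((num b : ℕ) : RQ Q)) = γ))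
    have hμ : ∀ (i : {q // q ∈ Q}) (b : ZMod (i : ℕ)) (γ : RQ Q),
        |mu Q F (γ + Pi.single i b) - mu Q F γ| ≤ η := by
      intro i b γ
      obtain ⟨ψ, hψ⟩ := exists_char' r (i : ℕ) (hQ i.1 i.2).2.2
      exact key Q i (hQ i.1 i.2).2.1 ψ hψ η hη0 N hN' k M B D (by omega) hMB (le_refl _) hBM F
        hLD b γ
    have hcount := count_units Q F η hμ hη0.le
    have hsub : (Finset.univ.filter (fun y : Fin k → Bool => Sum.elim y ω ∉ B1 ∧
        (u ω + 2 ^ j ω * num y + n ω * num (C.bit (Sum.elim y ω))).Prime)) ⊆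
        (Finset.univ.filter (fun z : Fin k → Bool =>
          ∀ i, (((num z : ℕ) : RQ Q) + F z) i ≠ 0)) ∪ E := by
      intro y hy
      obtain ⟨hyB, hp⟩ := (Finset.mem_filter.mp hy).2
      rw [Finset.mem_union]
      by_cases hyE : y ∈ E
      · exact Or.inr hyE
      refine Or.inl (Finset.mem_filter.mpr ⟨Finset.mem_univ _, fun i h0 => ?_⟩)
      have hbits : (fun l => a l (Sum.elim y ω)) = C.bit (Sum.elim y ω) :=
        funext fun l => h3 _ hyB l
      have h2ne : (2 : ZMod (i : ℕ)) ≠ 0 := by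
        intro h
        have h4 : ((2 : ℕ) : ZMod (i : ℕ)) = 0 := by exact_mod_cast h
        rw [ZMod.natCast_eq_zero_iff] at h4
        exact (hQ i.1 i.2).2.1 ((Nat.prime_dvd_prime_iff_eq (hF i).out Nat.prime_two).1 h4)
      have h4 : ((u ω + 2 ^ j ω * num y + n ω * num (C.bit (Sum.elim y ω)) : ℕ) :
          ZMod (i : ℕ)) = 0 := by
        have h5 : ((num y : ℕ) : ZMod (i : ℕ)) + ((2 : ZMod (i : ℕ))⁻¹) ^ (j ω) *
            ((u ω : ZMod (i : ℕ)) + (n ω : ZMod (i : ℕ)) *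
              ((num (C.bit (Sum.elim y ω)) : ℕ) : ZMod (i : ℕ))) = 0 := by
          have h6 : F y i = ((2 : ZMod (i : ℕ))⁻¹) ^ (j ω) * ((u ω : ZMod (i : ℕ)) +
              (n ω : ZMod (i : ℕ)) *
              ((num (C.bit (Sum.elim y ω)) : ℕ) : ZMod (i : ℕ))) := by
            show (((2 : RQ Q)⁻¹) ^ (j ω) * ((u ω : RQ Q) + (n ω : RQ Q) *
              ((num (fun l => a l (Sum.elim y ω)) : ℕ) : RQ Q))) i = _
            rw [hbits]
            rfl
          rw [← h6]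
          exact h0
        push_cast
        have h6 : (2 : ZMod (i : ℕ)) ^ (j ω) * ((2 : ZMod (i : ℕ))⁻¹) ^ (j ω) = 1 := by
          rw [← mul_pow, mul_inv_cancel₀ h2ne, one_pow]
        have h7 : (2 : ZMod (i : ℕ)) ^ (j ω) * (((num y : ℕ) : ZMod (i : ℕ)) +
            ((2 : ZMod (i : ℕ))⁻¹) ^ (j ω) * ((u ω : ZMod (i : ℕ)) +
            (n ω : ZMod (i : ℕ)) *
              ((num (C.bit (Sum.elim y ω)) : ℕ) : ZMod (i : ℕ)))) = 0 := by
          rw [h5, mul_zero]
        rw [mul_add, ← mul_assoc, h6, one_mul] at h7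
        rw [← h7]
        ring
      rw [ZMod.natCast_eq_zero_iff] at h4
      have h5 := (Nat.prime_dvd_prime_iff_eq (hF i).out hp).1 h4
      apply hyE
      rw [hE, Finset.mem_filter]
      refine ⟨Finset.mem_univ _, ?_⟩
      have h6 : (i : ℕ) ≤ ∑ q ∈ Q, q :=
        Finset.single_le_sum (f := fun q => q) (fun _ _ => Nat.zero_le _) i.2
      have h7 : num y ≤ 2 ^ j ω * num y := Nat.le_mul_of_pos_left _ (by positivity)
      omega
    have hcard := (Finset.card_le_card hsub).trans (Finset.card_union_le _ _)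
    have p2 : ((Finset.univ.filter (fun z : Fin k → Bool =>
          ∀ i, (((num z : ℕ) : RQ Q) + F z) i ≠ 0)).card : ℝ) ≤ ε / 2 * 2 ^ k := by
      refine hcount.trans (mul_le_mul_of_nonneg_right ?_ (by positivity))
      have h4 : c0 * (q0 * η) ≤ ε / 4 := by
        have h5 : c0 * (q0 * η) = ε / 4 * (q0 / (q0 + 1)) := by
          rw [hη]
          field_simp
        rw [h5]
        have h6 : q0 / (q0 + 1) ≤ 1 := by
          rw [div_le_one (by positivity)]
          linarith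
        nlinarith
      linarith
    have hcard' : ((Finset.univ.filter (fun y : Fin k → Bool => Sum.elim y ω ∉ B1 ∧
        (u ω + 2 ^ j ω * num y + n ω * num (C.bit (Sum.elim y ω))).Prime)).card : ℝ) ≤
        ((Finset.univ.filter (fun z : Fin k → Bool =>
          ∀ i, (((num z : ℕ) : RQ Q) + F z) i ≠ 0)).card : ℝ) + (E.card : ℝ) := by
      exact_mod_cast hcard
    linarith
  -- the sum over the further variables
  have hsum : (Finset.univ.filter (fun p : (Fin k → Bool) × (W → Bool) =>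
      (u p.2 + 2 ^ j p.2 * num p.1 + n p.2 * num (C.bit (Sum.elim p.1 p.2))).Prime)).card ≤
      B1.card + ∑ ω : W → Bool, (Finset.univ.filter (fun y : Fin k → Bool =>
      Sum.elim y ω ∉ B1 ∧
      (u ω + 2 ^ j ω * num y + n ω * num (C.bit (Sum.elim y ω))).Prime)).card := by
    have e1 : (Finset.univ.filter (fun p : (Fin k → Bool) × (W → Bool) =>
        Sum.elim p.1 p.2 ∉ B1 ∧
        (u p.2 + 2 ^ j p.2 * num p.1 + n p.2 * num (C.bit (Sum.elim p.1 p.2))).Prime)).card =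
        ∑ ω : W → Bool, (Finset.univ.filter (fun y : Fin k → Bool =>
        Sum.elim y ω ∉ B1 ∧
        (u ω + 2 ^ j ω * num y + n ω * num (C.bit (Sum.elim y ω))).Prime)).card := by
      simp only [Finset.card_filter]
      rw [Fintype.sum_prod_type, Finset.sum_comm]
    have e2 : (Finset.univ.filter (fun p : (Fin k → Bool) × (W → Bool) =>
        Sum.elim p.1 p.2 ∈ B1)).card ≤ B1.card := by
      refine Finset.card_le_card_of_injOn (fun p => Sum.elim p.1 p.2) ?_ ?_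
      · intro p hp
        exact (Finset.mem_filter.mp hp).2
      · intro p _ p' _ h
        exact (Equiv.sumArrowEquivProdArrow (Fin k) W Bool).symm.injective h
    rw [← e1]
    refine le_trans (Finset.card_le_card ?_) ((Finset.card_union_le _ _).trans
      (Nat.add_le_add_right e2 _))
    intro p hp
    rw [Finset.mem_union, Finset.mem_filter, Finset.mem_filter]
    by_cases h : Sum.elim p.1 p.2 ∈ B1
    · exact Or.inl ⟨Finset.mem_univ _, h⟩
    · exact Or.inr ⟨Finset.mem_univ _, h, (Finset.mem_filter.mp hp).2⟩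
  have hsum' : ((Finset.univ.filter (fun p : (Fin k → Bool) × (W → Bool) =>
      (u p.2 + 2 ^ j p.2 * num p.1 + n p.2 * num (C.bit (Sum.elim p.1 p.2))).Prime)).card : ℝ) ≤
      (B1.card : ℝ) + ∑ ω : W → Bool, ((Finset.univ.filter (fun y : Fin k → Bool =>
      Sum.elim y ω ∉ B1 ∧
      (u ω + 2 ^ j ω * num y + n ω * num (C.bit (Sum.elim y ω))).Prime)).card : ℝ) := by
    exact_mod_cast hsum
  refine hsum'.trans ((add_le_add p1 (Finset.sum_le_sum fun ω _ => hone ω)).trans (le_of_eq ?_))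
  rw [Finset.sum_const, Finset.card_univ, Fintype.card_fun, Fintype.card_bool, nsmul_eq_mul]
  push_cast
  ring

end PAM
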