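import Pool.Agent.helper36.PAM.Circ

/-!
# Approximation of circuits with MOD gates by Boolean functions of low degree
-/

namespace PAM

open Finset PAP

variable {V : Type} [Fintype V] [DecidableEq V] {K : Type} [Field K] {r d s m : ℕ}

/-- averaging -/
theorem exists_le_avg {ι : Type} [Fintype ι] [Nonempty ι] (F : ι → ℕ) (B : ℕ)
    (h : ∑ i, F i ≤ B * Fintype.card ι) : ∃ i, F i ≤ B := by
  by_contra hcon
  push Not at hcon
  have h1 : ∑ _i : ι, (B + 1) ≤ ∑ i, F i := Finset.sum_le_sum fun i _ => hcon i
  rw [Finset.sum_const, Finset.card_univ, smul_eq_mul] at h1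
  have h2 : 0 < Fintype.card ι := Fintype.card_pos
  nlinarith

variable [Fact r.Prime] [CharP K r]

/-- approximation of an OR -/
theorem or_approx {D n : ℕ} (w : ℕ) (b : Fin n → (V → Bool) → Bool)
    (hb : ∀ t, LD K D (b t)) :
    ∃ p : (V → Bool) → Bool, LD K (w * ((r - 1) * D)) p ∧
      2 ^ w * (Finset.univ.filter (fun x : V → Bool =>
        p x ≠ decide (∃ t, b t x = true))).card ≤ 2 ^ Fintype.card V := by
  classical
  have hr : r.Prime := Fact.out
  let p : (Fin w → Finset (Fin n)) → (V → Bool) → Bool := fun σ x =>
    !(decide (∀ j : Fin w, decide (((σ j).filter (fun t => b t x = true)).card ≡ 0 [MOD r]) = true))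
  let F : (Fin w → Finset (Fin n)) → ℕ := fun σ => 2 ^ w * (Finset.univ.filter
    (fun x : V → Bool => p σ x ≠ decide (∃ t, b t x = true))).card
  have hsum : ∑ σ, F σ ≤ 2 ^ Fintype.card V * Fintype.card (Fin w → Finset (Fin n)) := by
    have h1 : ∑ σ, F σ = ∑ x : V → Bool, 2 ^ w * (Finset.univ.filter
        (fun σ : Fin w → Finset (Fin n) => p σ x ≠ decide (∃ t, b t x = true))).card := by
      simp only [F]
      rw [← Finset.mul_sum, ← Finset.mul_sum]
      congr 1
      simp only [Finset.card_filter]
      rw [Finset.sum_comm]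
    rw [h1]
    have h2 : ∀ x : V → Bool, 2 ^ w * (Finset.univ.filter
        (fun σ : Fin w → Finset (Fin n) => p σ x ≠ decide (∃ t, b t x = true))).card ≤
        Fintype.card (Fin w → Finset (Fin n)) := by
      intro x
      by_cases hx : ∃ t, b t x = true
      · set A := Finset.univ.filter (fun S : Finset (Fin n) =>
          (S.filter (fun t => b t x = true)).card ≡ 0 [MOD r]) with hA
        have h3 := card_subsets_le (r := r) (fun t => b t x) hx hr.two_le
        have h4 : (Finset.univ.filter
            (fun σ : Fin w → Finset (Fin n) => p σ x ≠ decide (∃ t, b t x = true))) ⊆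
            Fintype.piFinset (fun _ : Fin w => A) := by
          intro σ hσ
          rw [Finset.mem_filter] at hσ
          rw [Fintype.mem_piFinset]
          intro j
          rw [hA, Finset.mem_filter]
          refine ⟨Finset.mem_univ _, ?_⟩
          have h5 := hσ.2
          simp only [p, hx, decide_true] at h5
          have h6 : decide (∀ j : Fin w,
              decide (((σ j).filter (fun t => b t x = true)).card ≡ 0 [MOD r]) = true) = true := by
            by_contra h7
            rw [Bool.not_eq_true] at h7
            rw [h7] at h5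
            exact h5 rfl
          have h8 := of_decide_eq_true h6 j
          exact of_decide_eq_true h8
        have h5 := Finset.card_le_card h4
        rw [Fintype.card_piFinset, Finset.prod_const, Finset.card_univ, Fintype.card_fin] at h5
        calc 2 ^ w * (Finset.univ.filter
            (fun σ : Fin w → Finset (Fin n) => p σ x ≠ decide (∃ t, b t x = true))).card
            ≤ 2 ^ w * A.card ^ w := Nat.mul_le_mul_left _ h5
          _ = (2 * A.card) ^ w := (mul_pow _ _ _).symm
          _ ≤ (2 ^ n) ^ w := Nat.pow_le_pow_left h3 w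
          _ = Fintype.card (Fin w → Finset (Fin n)) := by
              rw [Fintype.card_fun, Fintype.card_finset, Fintype.card_fin, Fintype.card_fin]
      · have h3 : (Finset.univ.filter
            (fun σ : Fin w → Finset (Fin n) => p σ x ≠ decide (∃ t, b t x = true))) = ∅ := by
          rw [Finset.filter_eq_empty_iff]
          intro σ _
          rw [not_not]
          push Not at hx
          have h4 : ∀ S : Finset (Fin n), S.filter (fun t => b t x = true) = ∅ := by
            intro S
            rw [Finset.filter_eq_empty_iff]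
            intro t _
            exact hx t
          have h5 : ¬ ∃ t, b t x = true := by
            push Not
            exact hx
          simp only [p, h4, Finset.card_empty, h5, decide_false]
          simp [Nat.ModEq]
        rw [h3, Finset.card_empty, mul_zero]
        exact Nat.zero_le _
    refine (Finset.sum_le_sum fun x _ => h2 x).trans ?_
    rw [Finset.sum_const, Finset.card_univ, smul_eq_mul, Fintype.card_fun, Fintype.card_bool]
  obtain ⟨σ, hσ⟩ := exists_le_avg F _ hsum
  refine ⟨p σ, ?_, hσ⟩
  refine LD_not (LD_all _ fun j => ?_)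
  exact LD_modEq (fun x t => b t x) (fun t => hb t) (σ j) 0

theorem and_approx {D n : ℕ} (w : ℕ) (b : Fin n → (V → Bool) → Bool)
    (hb : ∀ t, LD K D (b t)) :
    ∃ p : (V → Bool) → Bool, LD K (w * ((r - 1) * D)) p ∧
      2 ^ w * (Finset.univ.filter (fun x : V → Bool =>
        p x ≠ decide (∀ t, b t x = true))).card ≤ 2 ^ Fintype.card V := by
  obtain ⟨p, hp, hc⟩ := or_approx (K := K) (r := r) w (fun t x => !(b t x)) (fun t => LD_not (hb t))
  refine ⟨fun x => !(p x), LD_not hp, ?_⟩
  refine le_trans (Nat.mul_le_mul_left _ (Finset.card_le_card ?_)) hc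
  intro x hx
  rw [Finset.mem_filter] at hx ⊢
  refine ⟨hx.1, fun h => hx.2 ?_⟩
  show (!(p x)) = decide (∀ t, b t x = true)
  rw [h, ← decide_not]
  congr 1
  rw [eq_iff_iff]
  push Not
  simp

/-- approximation of a gate -/
theorem gate_approx (C : MCircuit V r d s m) (w D : ℕ) (hw : 1 ≤ w)
    (a : Fin s → (V → Bool) → Bool) (i : Fin s)
    (ha : ∀ t, LD K D (fun x => wireVal x (fun j => a j x) (C.wire i t))) :
    ∃ p : (V → Bool) → Bool, LD K (w * (r - 1) * D) p ∧
      2 ^ w * (Finset.univ.filter (fun x : V → Bool =>
        p x ≠ C.gate x (fun j => a j x) i)).card ≤ 2 ^ Fintype.card V := by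
  classical
  cases hk : C.kind i with
  | some c =>
    refine ⟨fun x => C.gate x (fun j => a j x) i, ?_, ?_⟩
    · have h1 := LD_modEq (r := r) (K := K)
        (fun x t => wireVal x (fun j => a j x) (C.wire i t)) ha Finset.univ c
      have e : (fun x => C.gate x (fun j => a j x) i) = fun x =>
          decide ((Finset.univ.filter (fun t : Fin (C.fan i) =>
            wireVal x (fun j => a j x) (C.wire i t) = true)).card ≡ c [MOD r]) := by
        funext x
        simp only [MCircuit.gate, hk]
      rw [e]
      refine LD_mono ?_ h1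
      rw [mul_assoc]
      exact Nat.le_mul_of_pos_left _ hw
    · simp
  | none =>
    cases ho : C.isOr i with
    | true =>
      obtain ⟨p, hp, hc⟩ := or_approx (K := K) (r := r) w
        (fun t x => wireVal x (fun j => a j x) (C.wire i t)) ha
      refine ⟨p, by rw [mul_assoc]; exact hp, ?_⟩
      have e : ∀ x, C.gate x (fun j => a j x) i =
          decide (∃ t, wireVal x (fun j => a j x) (C.wire i t) = true) := by
        intro x
        simp only [MCircuit.gate, hk, ho, if_true]
      simp only [e]
      exact hc
    | false =>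
      obtain ⟨p, hp, hc⟩ := and_approx (K := K) (r := r) w
        (fun t x => wireVal x (fun j => a j x) (C.wire i t)) ha
      refine ⟨p, by rw [mul_assoc]; exact hp, ?_⟩
      have e : ∀ x, C.gate x (fun j => a j x) i =
          decide (∀ t, wireVal x (fun j => a j x) (C.wire i t) = true) := by
        intro x
        simp only [MCircuit.gate, hk, ho, Bool.false_eq_true, if_false]
      simp only [e]
      exact hc

/-- the wires of a gate of level `≤ l` only read gates of level `< l` -/
theorem wire_eq (x : V → Bool) (g g' : Fin s → Bool) (q : (V ⊕ Fin s) × Bool)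
    (h : ∀ j, q.1 = Sum.inr j → g j = g' j) : wireVal x g q = wireVal x g' q := by
  obtain ⟨q1, c⟩ := q
  rcases q1 with v | j
  · rfl
  · show xor (g j) c = xor (g' j) c
    rw [h j rfl]

theorem gate_eq (C : MCircuit V r d s m) (x : V → Bool) (g g' : Fin s → Bool) (i : Fin s)
    (h : ∀ t j, (C.wire i t).1 = Sum.inr j → g j = g' j) : C.gate x g i = C.gate x g' i := by
  have e : ∀ t, wireVal x g (C.wire i t) = wireVal x g' (C.wire i t) := fun t =>
    wire_eq x g g' _ (h t)
  simp only [MCircuit.gate, e]

/-- approximation of a circuit -/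
theorem circuit_approx (C : MCircuit V r d s m) (w : ℕ) (hw : 1 ≤ w) (l : ℕ) :
    ∃ (a : Fin s → (V → Bool) → Bool) (B : Finset (V → Bool)),
      (∀ i, (C.lev i : ℕ) < l → LD K ((w * (r - 1)) ^ l) (a i)) ∧
      2 ^ w * B.card ≤ l * s * 2 ^ Fintype.card V ∧
      ∀ x, x ∉ B → ∀ i, (C.lev i : ℕ) < l → a i x = C.val x l i := by
  classical
  have hr : r.Prime := Fact.out
  have hE : 1 ≤ w * (r - 1) := Nat.mul_pos hw (by have := hr.two_le; omega)
  induction l with
  | zero =>
    exact ⟨fun _ _ => false, ∅, fun i hi => absurd hi (Nat.not_lt_zero _), by simp,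
      fun x _ i hi => absurd hi (Nat.not_lt_zero _)⟩
  | succ l ih =>
    obtain ⟨a, B, h1, h2, h3⟩ := ih
    have hwire : ∀ i, (C.lev i : ℕ) < l + 1 → ∀ t, LD K ((w * (r - 1)) ^ l)
        (fun x => wireVal x (fun j => a j x) (C.wire i t)) := by
      intro i hi t
      have hac := C.acyclic i t
      cases hq : C.wire i t with
      | mk q1 c =>
        rcases q1 with v | j
        · refine LD_xor (b := fun x => x v) ?_ c
          exact Lk_mono (Nat.one_le_pow _ _ hE) (Lk_var v)
        · refine LD_xor (b := fun x => a j x) (h1 j ?_) c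
          have h4 := hac j (by rw [hq])
          have h5 : (C.lev j : ℕ) < (C.lev i : ℕ) := h4
          omega
    have hg : ∀ i, ∃ p : (V → Bool) → Bool, ((C.lev i : ℕ) < l + 1 →
        LD K ((w * (r - 1)) ^ (l + 1)) p ∧ 2 ^ w * (Finset.univ.filter (fun x : V → Bool =>
        p x ≠ C.gate x (fun j => a j x) i)).card ≤ 2 ^ Fintype.card V) := by
      intro i
      by_cases hi : (C.lev i : ℕ) < l + 1
      · obtain ⟨p, hp, hc⟩ := gate_approx (K := K) C w _ hw a i (hwire i hi)
        refine ⟨p, fun _ => ⟨?_, hc⟩⟩
        rw [pow_succ, mul_comm]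
        exact hp
      · exact ⟨fun _ => false, fun h => absurd h hi⟩
    choose p hp using hg
    refine ⟨p, B ∪ (Finset.univ.filter (fun i : Fin s => (C.lev i : ℕ) < l + 1)).biUnion
      (fun i => Finset.univ.filter (fun x : V → Bool => p i x ≠ C.gate x (fun j => a j x) i)),
      fun i hi => (hp i hi).1, ?_, ?_⟩
    · calc 2 ^ w * (B ∪ (Finset.univ.filter (fun i : Fin s => (C.lev i : ℕ) < l + 1)).biUnion
            (fun i => Finset.univ.filter
              (fun x : V → Bool => p i x ≠ C.gate x (fun j => a j x) i))).card
          ≤ 2 ^ w * (B.card + ∑ i ∈ Finset.univ.filter (fun i : Fin s => (C.lev i : ℕ) < l + 1),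
              (Finset.univ.filter
              (fun x : V → Bool => p i x ≠ C.gate x (fun j => a j x) i)).card) :=
            Nat.mul_le_mul_left _ ((Finset.card_union_le _ _).trans
              (Nat.add_le_add_left Finset.card_biUnion_le _))
        _ = 2 ^ w * B.card + ∑ i ∈ Finset.univ.filter (fun i : Fin s => (C.lev i : ℕ) < l + 1),
              2 ^ w * (Finset.univ.filter
              (fun x : V → Bool => p i x ≠ C.gate x (fun j => a j x) i)).card := by
            rw [mul_add, Finset.mul_sum]
        _ ≤ l * s * 2 ^ Fintype.card V + ∑ i ∈ Finset.univ.filter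
              (fun i : Fin s => (C.lev i : ℕ) < l + 1), 2 ^ Fintype.card V :=
            Nat.add_le_add h2 (Finset.sum_le_sum fun i hi =>
              (hp i (Finset.mem_filter.mp hi).2).2)
        _ ≤ l * s * 2 ^ Fintype.card V + s * 2 ^ Fintype.card V := by
            rw [Finset.sum_const, smul_eq_mul]
            refine Nat.add_le_add_left (Nat.mul_le_mul_right _ ?_) _
            exact (Finset.card_le_univ _).trans (by rw [Fintype.card_fin])
        _ = (l + 1) * s * 2 ^ Fintype.card V := by ring
    · intro x hx i hi
      rw [Finset.mem_union, not_or, Finset.mem_biUnion] at hx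
      have h4 : p i x = C.gate x (fun j => a j x) i := by
        by_contra hcon
        exact hx.2 ⟨i, Finset.mem_filter.mpr ⟨Finset.mem_univ _, hi⟩,
          Finset.mem_filter.mpr ⟨Finset.mem_univ _, hcon⟩⟩
      rw [h4]
      show C.gate x (fun j => a j x) i = C.gate x (C.val x l) i
      refine gate_eq C x _ _ i fun t j hj => h3 x hx.1 j ?_
      have h5 : (C.lev j : ℕ) < (C.lev i : ℕ) := C.acyclic i t j hj
      omega

/-- approximation of the output bits -/
theorem bits_approx (C : MCircuit V r d s m) (w : ℕ) (hw : 1 ≤ w) :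
    ∃ (a : Fin m → (V → Bool) → Bool) (B : Finset (V → Bool)),
      (∀ i, LD K ((w * (r - 1)) ^ d) (a i)) ∧
      2 ^ w * B.card ≤ d * s * 2 ^ Fintype.card V ∧
      ∀ x, x ∉ B → ∀ i, a i x = C.bit x i := by
  have hr : r.Prime := Fact.out
  have hE : 1 ≤ w * (r - 1) := Nat.mul_pos hw (by have := hr.two_le; omega)
  obtain ⟨a, B, h1, h2, h3⟩ := circuit_approx (K := K) C w hw d
  refine ⟨fun i x => wireVal x (fun j => a j x) (C.out i), B, fun i => ?_, h2, fun x hx i => ?_⟩
  · show LD K _ (fun x => wireVal x (fun j => a j x) (C.out i))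
    cases hq : C.out i with
    | mk q1 c =>
      rcases q1 with v | j
      · refine LD_xor (K := K) (b := fun x => x v) ?_ c
        exact Lk_mono (Nat.one_le_pow _ _ hE) (Lk_var v)
      · exact LD_xor (K := K) (b := fun x => a j x) (h1 j (C.lev j).2) c
  · exact wire_eq x _ _ _ fun j _ => h3 x hx j (C.lev j).2

end PAM
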